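import Mathlib

set_option autoImplicit false

namespace Pool.Agent.Work.MP_44e7ab_co

open Finset Classical

/-- marginalisation of a finite product distribution along an injection -/
theorem marg {ι κ A : Type*} [Fintype ι] [Fintype κ] [Fintype A] [DecidableEq ι] [DecidableEq κ] (e : κ ↪ ι) (p : A → ℝ)
    (hp1 : ∑ a, p a = 1) (H : (κ → A) → ℝ) :
    ∑ x : ι → A, (∏ i, p (x i)) * H (fun k => x (e k)) = ∑ y : κ → A, (∏ k, p (y k)) * H y := by
  have h1 : ∀ x : ι → A, (∏ i, p (x i)) * H (fun k => x (e k)) =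
      ∑ y : κ → A, (if ∀ i ∈ (univ : Finset ι), ∀ k, e k = i → x i = y k then ∏ i, p (x i) else 0) * H y := by
    intro x
    rw [Finset.sum_eq_single (fun k => x (e k))]
    · rw [if_pos]
      intro i _ k hk
      rw [← hk]
    · intro y _ hy
      rw [if_neg, zero_mul]
      intro h
      apply hy
      funext k
      exact (h (e k) (mem_univ _) k rfl).symm
    · simp
  rw [Finset.sum_congr rfl (fun x _ => h1 x), Finset.sum_comm]
  apply Finset.sum_congr rfl
  intro y _
  rw [← Finset.sum_mul]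
  congr 1
  have h2 : ∀ x : ι → A, (if ∀ i ∈ (univ : Finset ι), ∀ k, e k = i → x i = y k then ∏ i, p (x i) else 0)
      = ∏ i, (if ∀ k, e k = i → x i = y k then p (x i) else 0) := by
    intro x
    have := Finset.prod_ite_zero (s := (univ : Finset ι)) (p := fun i => ∀ k, e k = i → x i = y k)
      (f := fun i => p (x i))
    convert this.symm
  rw [Finset.sum_congr rfl (fun x _ => h2 x)]
  have h3 : ∑ x : ι → A, ∏ i, (if ∀ k, e k = i → x i = y k then p (x i) else 0)
      = ∏ i : ι, ∑ a : A, (if ∀ k, e k = i → a = y k then p a else 0) := by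
    rw [Finset.prod_univ_sum]
    simp
  rw [h3]
  have h4 : ∀ i : ι, i ∉ (univ : Finset κ).map e → ∑ a : A, (if ∀ k, e k = i → a = y k then p a else 0) = 1 := by
    intro i hi
    rw [← hp1]
    apply Finset.sum_congr rfl
    intro a _
    rw [if_pos]
    intro k hk
    exfalso
    apply hi
    rw [Finset.mem_map]
    exact ⟨k, mem_univ _, hk⟩
  rw [← Finset.prod_subset (Finset.subset_univ ((univ : Finset κ).map e)) (fun i _ hi => h4 i hi),
    Finset.prod_map]
  apply Finset.prod_congr rfl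
  intro k _
  rw [Finset.sum_eq_single (y k)]
  · rw [if_pos]
    intro k' hk'
    rw [e.injective hk']
  · intro a _ ha
    rw [if_neg]
    intro h
    exact ha (h k rfl)
  · simp

theorem sum_prod_eq_one {ι A : Type*} [Fintype ι] [Fintype A] [DecidableEq ι] (p : A → ℝ)
    (hp1 : ∑ a, p a = 1) : ∑ x : ι → A, (∏ i, p (x i)) = 1 := by
  have := Finset.prod_univ_sum (fun _ : ι => (univ : Finset A)) (fun _ a => p a)
  simp only [hp1, Finset.prod_const_one] at this
  rw [this]
  simp

theorem sum_fin4 {A : Type*} [Fintype A] (p : A → ℝ) (H : A → A → A → A → ℝ) :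
    ∑ y : Fin 4 → A, (∏ k, p (y k)) * H (y 0) (y 1) (y 2) (y 3)
      = ∑ a, ∑ b, ∑ c, ∑ d, p a * p b * (p c * p d) * H a b c d := by
  have step : ∀ (n : ℕ) (F : (Fin (n + 1) → A) → ℝ),
      ∑ y : Fin (n + 1) → A, F y = ∑ a, ∑ z : Fin n → A, F (Fin.cons a z) := by
    intro n F
    rw [← Fintype.sum_prod_type' (f := fun a (z : Fin n → A) => F (Fin.cons a z))]
    symm
    apply Fintype.sum_equiv (Fin.consEquiv (fun _ => A))
    intro x
    rfl
  rw [step 3]
  apply Finset.sum_congr rfl; intro a _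
  rw [step 2]
  apply Finset.sum_congr rfl; intro b _
  rw [step 1]
  apply Finset.sum_congr rfl; intro c _
  rw [step 0]
  apply Finset.sum_congr rfl; intro d _
  rw [Fintype.sum_unique]
  simp only [Fin.prod_univ_four]
  have e1 : (Fin.cons a (Fin.cons b (Fin.cons c (Fin.cons d default))) : Fin 4 → A) 0 = a := rfl
  have e2 : (Fin.cons a (Fin.cons b (Fin.cons c (Fin.cons d default))) : Fin 4 → A) 1 = b := rfl
  have e3 : (Fin.cons a (Fin.cons b (Fin.cons c (Fin.cons d default))) : Fin 4 → A) 2 = c := rfl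
  have e4 : (Fin.cons a (Fin.cons b (Fin.cons c (Fin.cons d default))) : Fin 4 → A) 3 = d := rfl
  rw [e1, e2, e3, e4]
  ring

/-- If quadruples are bad with small probability, there is a long chain without bad quadruples -/
theorem chain {A : Type*} [Fintype A] (p : A → ℝ) (hp : ∀ a, 0 ≤ p a) (hp1 : ∑ a, p a = 1)
    (Bad : A → A → A → A → Prop) (T : ℝ)
    (hT : ∑ a, ∑ b, ∑ c, ∑ d, p a * p b * (p c * p d) * (if Bad a b c d then 1 else 0) ≤ T)
    (N : ℕ) (hN : (N : ℝ) ^ 2 * T < 1) :
    ∃ x : Fin N → A, ∀ (i j : ℕ) (hj : j + 1 < N) (hij : i + 1 < j),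
      ¬ Bad (x ⟨i, by omega⟩) (x ⟨i + 1, by omega⟩) (x ⟨j, by omega⟩) (x ⟨j + 1, hj⟩) := by
  by_contra hcon
  push Not at hcon
  -- probability that pair (i,j) is bad
  let B : Fin N → Fin N → (Fin N → A) → ℝ := fun i j x =>
    if h : (j.val + 1 < N ∧ i.val + 1 < j.val) then
      (if Bad (x ⟨i, by omega⟩) (x ⟨i + 1, by omega⟩) (x ⟨j, by omega⟩) (x ⟨j + 1, h.1⟩) then 1 else 0)
    else 0
  have hB0 : ∀ i j x, 0 ≤ B i j x := by
    intro i j x
    simp only [B]
    split_ifs <;> norm_num
  have hge : ∀ x : Fin N → A, 1 ≤ ∑ i, ∑ j, B i j x := by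
    intro x
    obtain ⟨i, j, hj, hij, hbad⟩ := hcon x
    have h1 : B ⟨i, by omega⟩ ⟨j, by omega⟩ x = 1 := by
      simp only [B]
      rw [dif_pos ⟨hj, hij⟩, if_pos hbad]
    calc (1 : ℝ) = B ⟨i, by omega⟩ ⟨j, by omega⟩ x := h1.symm
      _ ≤ ∑ j', B ⟨i, by omega⟩ j' x :=
          Finset.single_le_sum (f := fun j' => B ⟨i, by omega⟩ j' x) (fun j' _ => hB0 _ j' x) (mem_univ _)
      _ ≤ ∑ i', ∑ j', B i' j' x :=
          Finset.single_le_sum (f := fun i' => ∑ j', B i' j' x)
            (fun i' _ => Finset.sum_nonneg fun j' _ => hB0 i' j' x) (mem_univ _)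
  have hprod : ∀ x : Fin N → A, 0 ≤ ∏ i, p (x i) := fun x => Finset.prod_nonneg fun i _ => hp _
  have hT0 : 0 ≤ T := by
    refine le_trans ?_ hT
    apply Finset.sum_nonneg; intro a _
    apply Finset.sum_nonneg; intro b _
    apply Finset.sum_nonneg; intro c _
    apply Finset.sum_nonneg; intro d _
    apply mul_nonneg
    · exact mul_nonneg (mul_nonneg (hp _) (hp _)) (mul_nonneg (hp _) (hp _))
    · split_ifs <;> norm_num
  have hpair : ∀ i j : Fin N, ∑ x : Fin N → A, (∏ l, p (x l)) * B i j x ≤ T := by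
    intro i j
    by_cases h : (j.val + 1 < N ∧ i.val + 1 < j.val)
    · have hi1 : i.val < N := i.2
      have hi2 : i.val + 1 < N := by omega
      have hj1 : j.val < N := j.2
      let e0 : Fin 4 → Fin N := ![⟨i.val, hi1⟩, ⟨i.val + 1, hi2⟩, ⟨j.val, hj1⟩, ⟨j.val + 1, h.1⟩]
      have e0mono : StrictMono e0 := by
        rw [Fin.strictMono_iff_lt_succ]
        intro k
        fin_cases k
        · show (⟨i.val, hi1⟩ : Fin N) < ⟨i.val + 1, hi2⟩
          exact Fin.mk_lt_mk.mpr (by omega)
        · show (⟨i.val + 1, hi2⟩ : Fin N) < ⟨j.val, hj1⟩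
          exact Fin.mk_lt_mk.mpr (by omega)
        · show (⟨j.val, hj1⟩ : Fin N) < ⟨j.val + 1, h.1⟩
          exact Fin.mk_lt_mk.mpr (by omega)
      let e : Fin 4 ↪ Fin N := ⟨e0, e0mono.injective⟩
      have h1 : ∀ x : Fin N → A, (∏ l, p (x l)) * B i j x = (∏ l, p (x l)) *
          (fun y : Fin 4 → A => (if Bad (y 0) (y 1) (y 2) (y 3) then (1 : ℝ) else 0)) (fun k => x (e k)) := by
        intro x
        simp only [B]
        rw [dif_pos h]
        rfl
      rw [Finset.sum_congr rfl (fun x _ => h1 x)]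
      have h2 := marg e p hp1 (fun y : Fin 4 → A => (if Bad (y 0) (y 1) (y 2) (y 3) then (1 : ℝ) else 0))
      have h3 := sum_fin4 p (fun a b c d => if Bad a b c d then (1 : ℝ) else 0)
      exact (h2.trans h3).le.trans hT
    · have h1 : ∀ x : Fin N → A, (∏ l, p (x l)) * B i j x = 0 := by
        intro x
        simp only [B]
        rw [dif_neg h, mul_zero]
      rw [Finset.sum_congr rfl (fun x _ => h1 x)]
      simpa using hT0
  have htot : (1 : ℝ) ≤ N ^ 2 * T := by
    calc (1 : ℝ) = ∑ x : Fin N → A, (∏ l, p (x l)) := (sum_prod_eq_one p hp1).symm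
      _ ≤ ∑ x : Fin N → A, (∏ l, p (x l)) * ∑ i, ∑ j, B i j x := by
          apply Finset.sum_le_sum
          intro x _
          nlinarith [hprod x, hge x]
      _ = ∑ i, ∑ j, ∑ x : Fin N → A, (∏ l, p (x l)) * B i j x := by
          simp only [Finset.mul_sum]
          rw [Finset.sum_comm]
          apply Finset.sum_congr rfl
          intro i _
          rw [Finset.sum_comm]
      _ ≤ ∑ i : Fin N, ∑ j : Fin N, T := by
          apply Finset.sum_le_sum; intro i _
          apply Finset.sum_le_sum; intro j _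
          exact hpair i j
      _ = N ^ 2 * T := by
          simp
          ring
  linarith

end Pool.Agent.Work.MP_44e7ab_co
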