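import Mathlib

set_option autoImplicit false

namespace Pool.Agent.Work.MP_44e7ab_co

open Finset Classical

universe u

/-- `X` contains no independent set of size `n`. -/
def Small {V : Type u} (G : SimpleGraph V) (n : ℕ) (X : Finset V) : Prop :=
  ∀ I : Finset V, I ⊆ X → G.IsIndepSet (I : Set V) → I.card < n

/-- no two independent `n`-sets are complete to each other -/
def NoKnn {V : Type u} (G : SimpleGraph V) (n : ℕ) : Prop :=
  ∀ A B : Finset V, A.card = n → B.card = n → G.IsIndepSet (A : Set V) →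
    G.IsIndepSet (B : Set V) → ¬ (∀ a ∈ A, ∀ b ∈ B, G.Adj a b)

lemma exists_of_not_small {V : Type u} {G : SimpleGraph V} {n : ℕ} {X : Finset V}
    (h : ¬ Small G n X) : ∃ I : Finset V, I ⊆ X ∧ G.IsIndepSet (I : Set V) ∧ I.card = n := by
  unfold Small at h
  push Not at h
  obtain ⟨I, hIX, hI, hc⟩ := h
  obtain ⟨J, hJI, hJ⟩ := Finset.exists_subset_card_eq hc
  exact ⟨J, hJI.trans hIX, hI.mono (by exact_mod_cast hJI), hJ⟩

section
variable {V : Type u} [Fintype V] (G : SimpleGraph V) (μ : V → ℝ)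

/-- mass -/
noncomputable def m (Y : Finset V) : ℝ := ∑ v ∈ Y, μ v

/-- mass of non-adjacent pairs (including equal ones) -/
noncomputable def NA (Y : Finset V) : ℝ :=
  ∑ x ∈ Y, ∑ y ∈ Y, if G.Adj x y then 0 else μ x * μ y

/-- mass of the edges between `U` and `W` -/
noncomputable def E (U W : Finset V) : ℝ :=
  ∑ x ∈ U, ∑ y ∈ W, if G.Adj x y then μ x * μ y else 0

variable {G μ}

lemma m_nonneg (hμ : ∀ v, 0 ≤ μ v) (Y : Finset V) : 0 ≤ m μ Y :=
  Finset.sum_nonneg fun v _ => hμ v

lemma m_mono (hμ : ∀ v, 0 ≤ μ v) {Y Z : Finset V} (h : Y ⊆ Z) : m μ Y ≤ m μ Z :=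
  Finset.sum_le_sum_of_subset_of_nonneg h fun v _ _ => hμ v

lemma claim1 {n : ℕ} (hn : 1 ≤ n) (hK : NoKnn G n) (hμ : ∀ v, 0 ≤ μ v) {η κ : ℝ}
    (hη : 0 < η)
    (hsmall : ∀ X : Finset V, Small G n X → m μ X ≤ η) (hκ : 2 * η < κ) {Y : Finset V}
    (hY : κ ≤ m μ Y) : (m μ Y) ^ 2 / (4 * n) ≤ NA G μ Y := by
  by_contra hlt
  push Not at hlt
  have hn' : (0 : ℝ) < n := by exact_mod_cast hn
  have hmY : 0 < m μ Y := by linarith
  set Z := Y.filter (fun x => m μ (Y.filter (fun y => ¬ G.Adj x y)) ≤ m μ Y / (2 * n)) with hZ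
  -- mass of the complement of Z
  have h1 : (m μ Y - m μ Z) * (m μ Y / (2 * n)) ≤ NA G μ Y := by
    have hsplit : m μ Y - m μ Z = ∑ x ∈ Y.filter (fun x => ¬ (m μ (Y.filter (fun y => ¬ G.Adj x y)) ≤ m μ Y / (2 * n))), μ x := by
      have := Finset.sum_filter_add_sum_filter_not Y
        (fun x => m μ (Y.filter (fun y => ¬ G.Adj x y)) ≤ m μ Y / (2 * n)) μ
      unfold m at this ⊢
      rw [hZ]
      unfold m
      linarith
    rw [hsplit, Finset.sum_mul]
    unfold NA
    have hsub : ∑ x ∈ Y.filter (fun x => ¬ (m μ (Y.filter (fun y => ¬ G.Adj x y)) ≤ m μ Y / (2 * n))),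
        (∑ y ∈ Y, if G.Adj x y then 0 else μ x * μ y) ≤
        ∑ x ∈ Y, (∑ y ∈ Y, if G.Adj x y then 0 else μ x * μ y) := by
      apply Finset.sum_le_sum_of_subset_of_nonneg (Finset.filter_subset _ _)
      intro x _ _
      apply Finset.sum_nonneg
      intro y _
      split_ifs
      · exact le_rfl
      · exact mul_nonneg (hμ x) (hμ y)
    refine le_trans ?_ hsub
    apply Finset.sum_le_sum
    intro x hx
    rw [Finset.mem_filter] at hx
    have hx2 := hx.2
    push Not at hx2
    have : (∑ y ∈ Y, if G.Adj x y then 0 else μ x * μ y)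
        = μ x * m μ (Y.filter (fun y => ¬ G.Adj x y)) := by
      unfold m
      rw [Finset.sum_filter, Finset.mul_sum]
      apply Finset.sum_congr rfl
      intro y _
      split_ifs <;> simp_all
    rw [this]
    exact mul_le_mul_of_nonneg_left hx2.le (hμ x)
  have h2 : m μ Y / 2 < m μ Z := by
    have h3 : (m μ Y - m μ Z) * (m μ Y / (2 * n)) < (m μ Y / 2) * (m μ Y / (2 * n)) := by
      refine lt_of_le_of_lt h1 (lt_of_lt_of_eq hlt ?_)
      field_simp
      ring
    have h4 : 0 < m μ Y / (2 * n) := by positivity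
    have := lt_of_mul_lt_mul_right h3 h4.le
    linarith
  have hZns : ¬ Small G n Z := by
    intro hs
    have := hsmall Z hs
    linarith
  obtain ⟨A, hAZ, hA, hAc⟩ := exists_of_not_small hZns
  set B := Y.filter (fun y => ∀ a ∈ A, G.Adj a y) with hB
  have h5 : m μ Y ≤ m μ B + ∑ a ∈ A, m μ (Y.filter (fun y => ¬ G.Adj a y)) := by
    have hpt : ∀ y ∈ Y, μ y ≤ (if (∀ a ∈ A, G.Adj a y) then μ y else 0)
        + ∑ a ∈ A, (if ¬ G.Adj a y then μ y else 0) := by
      intro y _
      by_cases h : ∀ a ∈ A, G.Adj a y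
      · rw [if_pos h]
        have : 0 ≤ ∑ a ∈ A, (if ¬ G.Adj a y then μ y else 0) := by
          apply Finset.sum_nonneg
          intro a _
          split_ifs
          · exact le_rfl
          · exact hμ y
        linarith
      · rw [if_neg h]
        push Not at h
        obtain ⟨a, ha, hay⟩ := h
        have : (if ¬ G.Adj a y then μ y else 0) ≤ ∑ a ∈ A, (if ¬ G.Adj a y then μ y else 0) := by
          apply Finset.single_le_sum (f := fun a => (if ¬ G.Adj a y then μ y else 0)) _ ha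
          intro a _
          show 0 ≤ (if ¬ G.Adj a y then μ y else 0)
          split_ifs
          · exact le_rfl
          · exact hμ y
        rw [if_pos hay] at this
        linarith
    have hs := Finset.sum_le_sum hpt
    rw [Finset.sum_add_distrib, Finset.sum_comm] at hs
    simp only [m, hB, Finset.sum_filter]
    exact hs
  have h6 : ∑ a ∈ A, m μ (Y.filter (fun y => ¬ G.Adj a y)) ≤ m μ Y / 2 := by
    have : ∑ a ∈ A, m μ (Y.filter (fun y => ¬ G.Adj a y)) ≤ ∑ _a ∈ A, m μ Y / (2 * n) := by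
      apply Finset.sum_le_sum
      intro a ha
      have := hAZ ha
      rw [hZ, Finset.mem_filter] at this
      exact this.2
    refine this.trans (le_of_eq ?_)
    rw [Finset.sum_const, hAc, nsmul_eq_mul]
    field_simp
  have hBns : ¬ Small G n B := by
    intro hs
    have := hsmall B hs
    linarith
  obtain ⟨B', hB'B, hB', hB'c⟩ := exists_of_not_small hBns
  refine hK A B' hAc hB'c hA hB' ?_
  intro a ha b hb
  have := hB'B hb
  rw [hB, Finset.mem_filter] at this
  exact this.2 a ha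

/-- the key averaging step -/
lemma claim2 {n : ℕ} (hn : 1 ≤ n) (hK : NoKnn G n) (hμ : ∀ v, 0 ≤ μ v) (hμ1 : m μ univ ≤ 1)
    {η κ ρ : ℝ} (hη : 0 < η)
    (hsmall : ∀ X : Finset V, Small G n X → m μ X ≤ η) (hn2 : 2 ≤ n) (hκ : 8 * n * η ≤ κ)
    (hρ : 2 * κ ≤ ρ) {U W : Finset V} (hE : ρ ≤ E G μ U W) :
    ∃ v ∈ W, ρ ^ 2 / (64 * n) ≤
      E G μ (U.filter (fun u => G.Adj v u)) (W.filter (fun w => w ≠ v ∧ ¬ G.Adj v w)) := by
  by_contra hcon
  push Not at hcon
  have hn' : (0 : ℝ) < n := by exact_mod_cast hn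
  have hn2' : (2 : ℝ) ≤ n := by exact_mod_cast hn2
  have hκ0 : 0 < κ := by
    have : 0 < 8 * (n : ℝ) * η := by positivity
    linarith
  have hρ0 : 0 < ρ := by linarith
  have hpt : ∀ v, μ v ≤ η := by
    intro v
    have : m μ {v} ≤ η := by
      apply hsmall
      intro I hI _
      have := Finset.card_le_card hI
      rw [Finset.card_singleton] at this
      omega
    simpa [m] using this
  -- upper bound
  have hub : ∑ v ∈ W, μ v * E G μ (U.filter (fun u => G.Adj v u)) (W.filter (fun w => w ≠ v ∧ ¬ G.Adj v w))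
      ≤ ρ ^ 2 / (64 * n) := by
    calc _ ≤ ∑ v ∈ W, μ v * (ρ ^ 2 / (64 * n)) := by
            apply Finset.sum_le_sum
            intro v hv
            exact mul_le_mul_of_nonneg_left (hcon v hv).le (hμ v)
      _ = m μ W * (ρ ^ 2 / (64 * n)) := by rw [← Finset.sum_mul]; rfl
      _ ≤ 1 * (ρ ^ 2 / (64 * n)) := by
            apply mul_le_mul_of_nonneg_right _ (by positivity)
            exact (m_mono hμ (Finset.subset_univ W)).trans hμ1
      _ = _ := one_mul _
  -- rewriting
  have hrw : ∑ v ∈ W, μ v * E G μ (U.filter (fun u => G.Adj v u)) (W.filter (fun w => w ≠ v ∧ ¬ G.Adj v w))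
      = ∑ u ∈ U, μ u * (NA G μ (W.filter (fun w => G.Adj u w)) -
          ∑ v ∈ W.filter (fun w => G.Adj u w), μ v * μ v) := by
    have h1 : ∀ v ∈ W, μ v * E G μ (U.filter (fun u => G.Adj v u)) (W.filter (fun w => w ≠ v ∧ ¬ G.Adj v w))
        = ∑ u ∈ U, ∑ w ∈ W, (if G.Adj v u ∧ (w ≠ v ∧ ¬ G.Adj v w) ∧ G.Adj u w then μ v * μ u * μ w else 0) := by
      intro v _
      unfold E
      rw [Finset.sum_filter, Finset.mul_sum]
      apply Finset.sum_congr rfl
      intro u _
      by_cases hvu : G.Adj v u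
      · rw [if_pos hvu, Finset.sum_filter, Finset.mul_sum]
        apply Finset.sum_congr rfl
        intro w _
        by_cases h2 : w ≠ v ∧ ¬ G.Adj v w
        · by_cases h3 : G.Adj u w
          · rw [if_pos h2, if_pos h3, if_pos ⟨hvu, h2, h3⟩]; ring
          · rw [if_pos h2, if_neg h3, if_neg (by tauto)]; ring
        · rw [if_neg h2, if_neg (by tauto)]; ring
      · rw [if_neg hvu, mul_zero]
        symm
        apply Finset.sum_eq_zero
        intro w _
        rw [if_neg (by tauto)]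
    rw [Finset.sum_congr rfl h1, Finset.sum_comm]
    apply Finset.sum_congr rfl
    intro u _
    have h4 : NA G μ (W.filter (fun w => G.Adj u w)) -
          ∑ v ∈ W.filter (fun w => G.Adj u w), μ v * μ v
        = ∑ v ∈ W, ∑ w ∈ W, (if G.Adj v u ∧ (w ≠ v ∧ ¬ G.Adj v w) ∧ G.Adj u w then μ v * μ w else 0) := by
      unfold NA
      rw [← Finset.sum_sub_distrib, Finset.sum_filter]
      apply Finset.sum_congr rfl
      intro v hv
      by_cases huv : G.Adj u v
      · rw [if_pos huv, Finset.sum_filter]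
        have h5 : μ v * μ v = ∑ w ∈ W, (if w = v then μ v * μ w else 0) := by
          rw [Finset.sum_ite_eq' W v (fun w => μ v * μ w), if_pos hv]
        rw [h5, ← Finset.sum_sub_distrib]
        apply Finset.sum_congr rfl
        intro w _
        by_cases hw : w = v
        · subst hw
          simp [huv, huv.symm]
        · by_cases h6 : G.Adj u w <;> by_cases h7 : G.Adj v w <;> simp [hw, h6, h7, huv.symm]
      · rw [if_neg huv]
        symm
        apply Finset.sum_eq_zero
        intro w _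
        rw [if_neg]
        intro h
        exact huv h.1.symm
    rw [h4, Finset.mul_sum]
    apply Finset.sum_congr rfl
    intro v _
    rw [Finset.mul_sum]
    apply Finset.sum_congr rfl
    intro w _
    split_ifs
    · ring
    · ring
  -- pointwise lower bound
  set κ' := ρ / 2 with hκ'
  have hlow : ∀ u ∈ U, κ' / (8 * n) * (m μ (W.filter (fun w => G.Adj u w)) - κ') ≤
      NA G μ (W.filter (fun w => G.Adj u w)) - ∑ v ∈ W.filter (fun w => G.Adj u w), μ v * μ v := by
    intro u _
    set Y := W.filter (fun w => G.Adj u w) with hY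
    have hsq : ∑ v ∈ Y, μ v * μ v ≤ η * m μ Y := by
      unfold m
      rw [Finset.mul_sum]
      apply Finset.sum_le_sum
      intro v _
      exact mul_le_mul_of_nonneg_right (hpt v) (hμ v)
    by_cases hm : κ' ≤ m μ Y
    · have h1 := claim1 hn hK hμ hη hsmall (κ := κ') (by
        have : 2 * η < 8 * n * η := by nlinarith
        linarith) hm
      have hm0 : 0 < m μ Y := by linarith
      have h2 : η * m μ Y ≤ (m μ Y) ^ 2 / (8 * n) := by
        rw [le_div_iff₀ (by positivity)]
        have : 8 * n * η ≤ m μ Y := by linarith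
        nlinarith
      have h3 : κ' / (8 * n) * (m μ Y - κ') ≤ (m μ Y) ^ 2 / (8 * n) := by
        rw [div_mul_eq_mul_div]
        apply div_le_div_of_nonneg_right _ (by positivity)
        nlinarith
      have h4 : (m μ Y) ^ 2 / (4 * n) = (m μ Y) ^ 2 / (8 * n) + (m μ Y) ^ 2 / (8 * n) := by
        field_simp
        ring
      linarith
    · push Not at hm
      have h1 : κ' / (8 * n) * (m μ Y - κ') ≤ 0 := by
        apply mul_nonpos_of_nonneg_of_nonpos
        · have : 0 < κ' := by rw [hκ']; linarith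
          positivity
        · linarith
      have h2 : ∑ v ∈ Y, μ v * μ v ≤ NA G μ Y := by
        unfold NA
        apply Finset.sum_le_sum
        intro v hv
        have : μ v * μ v = (if G.Adj v v then 0 else μ v * μ v) := by simp
        rw [this]
        apply Finset.single_le_sum (f := fun y => if G.Adj v y then 0 else μ v * μ y) _ hv
        intro y _
        show 0 ≤ (if G.Adj v y then 0 else μ v * μ y)
        split_ifs
        · exact le_rfl
        · exact mul_nonneg (hμ v) (hμ y)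
      linarith
  have hE2 : E G μ U W = ∑ u ∈ U, μ u * m μ (W.filter (fun w => G.Adj u w)) := by
    unfold E m
    apply Finset.sum_congr rfl
    intro u _
    rw [Finset.sum_filter, Finset.mul_sum]
    apply Finset.sum_congr rfl
    intro w _
    split_ifs <;> simp
  have hfin : κ' / (8 * n) * (ρ - κ') ≤ ρ ^ 2 / (64 * n) := by
    refine le_trans ?_ hub
    rw [hrw]
    have h1 : ∑ u ∈ U, μ u * (κ' / (8 * n) * (m μ (W.filter (fun w => G.Adj u w)) - κ'))
        ≤ ∑ u ∈ U, μ u * (NA G μ (W.filter (fun w => G.Adj u w)) -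
          ∑ v ∈ W.filter (fun w => G.Adj u w), μ v * μ v) := by
      apply Finset.sum_le_sum
      intro u hu
      exact mul_le_mul_of_nonneg_left (hlow u hu) (hμ u)
    refine le_trans ?_ h1
    have h2 : ∑ u ∈ U, μ u * (κ' / (8 * n) * (m μ (W.filter (fun w => G.Adj u w)) - κ'))
        = κ' / (8 * n) * (E G μ U W - κ' * m μ U) := by
      rw [hE2]
      unfold m
      rw [Finset.mul_sum (s := U) (a := κ'), ← Finset.sum_sub_distrib, Finset.mul_sum]
      apply Finset.sum_congr rfl
      intro u _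
      ring
    rw [h2]
    have hκ'0 : 0 < κ' := by rw [hκ']; linarith
    apply mul_le_mul_of_nonneg_left _ (by positivity)
    have h3 : m μ U ≤ 1 := (m_mono hμ (Finset.subset_univ U)).trans hμ1
    nlinarith
  have hcalc : κ' / (8 * n) * (ρ - κ') = ρ ^ 2 / (32 * n) := by
    rw [hκ']
    field_simp
    ring
  rw [hcalc] at hfin
  have hpos : 0 < ρ ^ 2 / (64 * n) := by positivity
  have h32 : ρ ^ 2 / (32 * n) = 2 * (ρ ^ 2 / (64 * n)) := by
    field_simp
    ring
  linarith

end

/-- the sequence of densities -/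
noncomputable def rho (n : ℕ) (ε : ℝ) : ℕ → ℝ
  | 0 => ε
  | (i + 1) => (rho n ε i) ^ 2 / (64 * n)

lemma rho_pos {n : ℕ} (hn : 1 ≤ n) {ε : ℝ} (hε : 0 < ε) (i : ℕ) : 0 < rho n ε i := by
  induction i with
  | zero => exact hε
  | succ i ih =>
    have hn' : (0 : ℝ) < n := by exact_mod_cast hn
    unfold rho
    positivity

lemma rho_le {n : ℕ} (hn : 1 ≤ n) {ε : ℝ} (hε : 0 < ε) (hε1 : ε ≤ 1) (i : ℕ) :
    rho n ε (i + 1) ≤ rho n ε i ∧ rho n ε i ≤ 1 := by
  have hn' : (1 : ℝ) ≤ n := by exact_mod_cast hn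
  have key : ∀ i, rho n ε i ≤ 1 → rho n ε (i + 1) ≤ rho n ε i := by
    intro i h
    have hp := rho_pos hn hε i
    show (rho n ε i) ^ 2 / (64 * n) ≤ rho n ε i
    rw [div_le_iff₀ (by positivity)]
    nlinarith
  induction i with
  | zero => exact ⟨key 0 hε1, hε1⟩
  | succ i ih =>
    have h1 : rho n ε (i + 1) ≤ 1 := ih.1.trans ih.2
    exact ⟨key _ h1, h1⟩

lemma rho_anti {n : ℕ} (hn : 1 ≤ n) {ε : ℝ} (hε : 0 < ε) (hε1 : ε ≤ 1) : Antitone (rho n ε) :=
  antitone_nat_of_succ_le fun i => (rho_le hn hε hε1 i).1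

lemma density_aux {V : Type u} [Fintype V] {G : SimpleGraph V} {μ : V → ℝ}
    {n : ℕ} (hn2 : 2 ≤ n) (hK : NoKnn G n) (hμ : ∀ v, 0 ≤ μ v) (hμ1 : m μ univ ≤ 1)
    {η ε : ℝ} (hη : 0 < η) (hε : 0 < ε) (hε1 : ε ≤ 1)
    (hsmall : ∀ X : Finset V, Small G n X → m μ X ≤ η)
    (hηρ : 16 * n * η ≤ rho n ε n) (hE : ε ≤ E G μ univ univ) (i : ℕ) (hi : i ≤ n) :
    ∃ (A U W : Finset V), A.card = i ∧ G.IsIndepSet (A : Set V) ∧
      (∀ a ∈ A, ∀ u ∈ U, G.Adj a u) ∧ (∀ a ∈ A, ∀ w ∈ W, w ≠ a ∧ ¬ G.Adj a w) ∧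
      rho n ε i ≤ E G μ U W := by
  have hn : 1 ≤ n := by omega
  induction i with
  | zero =>
    refine ⟨∅, univ, univ, rfl, by simp [SimpleGraph.IsIndepSet], by simp, by simp, hE⟩
  | succ i ih =>
    obtain ⟨A, U, W, hAc, hA, hAU, hAW, hρ⟩ := ih (by omega)
    have hanti := rho_anti hn hε hε1 (show i ≤ n by omega)
    obtain ⟨v, hvW, hv⟩ := claim2 hn hK hμ hμ1 hη hsmall hn2 (κ := 8 * n * η) le_rfl
      (ρ := rho n ε i) (by linarith) hρ
    have hvA : v ∉ A := by
      intro hvA
      exact (hAW v hvA v hvW).1 rfl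
    refine ⟨insert v A, U.filter (fun u => G.Adj v u), W.filter (fun w => w ≠ v ∧ ¬ G.Adj v w),
      ?_, ?_, ?_, ?_, hv⟩
    · rw [Finset.card_insert_of_notMem hvA, hAc]
    · intro x hx y hy hxy
      rw [Finset.mem_coe, Finset.mem_insert] at hx hy
      rcases hx with rfl | hx
      · rcases hy with rfl | hy
        · exact absurd rfl hxy
        · intro h
          exact (hAW y hy x hvW).2 h.symm
      · rcases hy with rfl | hy
        · exact (hAW x hx y hvW).2
        · exact hA (by simpa using hx) (by simpa using hy) hxy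
    · intro a ha u hu
      rw [Finset.mem_filter] at hu
      rw [Finset.mem_insert] at ha
      rcases ha with rfl | ha
      · exact hu.2
      · exact hAU a ha u hu.1
    · intro a ha w hw
      rw [Finset.mem_filter] at hw
      rw [Finset.mem_insert] at ha
      rcases ha with rfl | ha
      · exact hw.2
      · exact hAW a ha w hw.1

/-- **Density lemma.** -/
theorem density (n : ℕ) (hn2 : 2 ≤ n) (ε : ℝ) (hε : 0 < ε) :
    ∃ η : ℝ, 0 < η ∧ ∀ (V : Type u) [Fintype V] (G : SimpleGraph V), NoKnn G n →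
      ∀ μ : V → ℝ, (∀ v, 0 ≤ μ v) → m μ univ ≤ 1 →
      (∀ X : Finset V, Small G n X → m μ X ≤ η) → E G μ univ univ ≤ ε := by
  have hn : 1 ≤ n := by omega
  have hn' : (0 : ℝ) < n := by exact_mod_cast hn
  set ε₁ := min ε 1 with hε₁
  have hε₁0 : 0 < ε₁ := lt_min hε one_pos
  have hε₁1 : ε₁ ≤ 1 := min_le_right _ _
  have hρn := rho_pos hn hε₁0 n
  refine ⟨rho n ε₁ n / (16 * n), by positivity, ?_⟩
  intro V _ G hK μ hμ hμ1 hsmall
  by_contra hcon
  push Not at hcon
  obtain ⟨A, U, W, hAc, hA, hAU, hAW, hρ⟩ := density_aux (V := V) (G := G) (μ := μ) hn2 hK hμ hμ1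
    (η := rho n ε₁ n / (16 * n)) (ε := ε₁) (by positivity) hε₁0 hε₁1 hsmall
    (le_of_eq (by field_simp)) ((min_le_left _ _).trans hcon.le) n le_rfl
  -- U has large mass
  have hEU : E G μ U W ≤ m μ U := by
    have h1 : E G μ U W ≤ ∑ u ∈ U, μ u * m μ W := by
      unfold E m
      apply Finset.sum_le_sum
      intro u _
      rw [Finset.mul_sum]
      apply Finset.sum_le_sum
      intro w _
      split_ifs
      · exact le_rfl
      · exact mul_nonneg (hμ u) (hμ w)
    rw [← Finset.sum_mul] at h1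
    have h2 : m μ W ≤ 1 := (m_mono hμ (Finset.subset_univ W)).trans hμ1
    have h3 : 0 ≤ m μ U := m_nonneg hμ U
    calc E G μ U W ≤ m μ U * m μ W := h1
      _ ≤ m μ U * 1 := mul_le_mul_of_nonneg_left h2 h3
      _ = m μ U := mul_one _
  have hUns : ¬ Small G n U := by
    intro hs
    have h1 := hsmall U hs
    have h2 : rho n ε₁ n / (16 * n) < rho n ε₁ n := by
      rw [div_lt_iff₀ (by positivity)]
      have : (1 : ℝ) ≤ n := by exact_mod_cast hn
      nlinarith
    linarith
  obtain ⟨B, hBU, hB, hBc⟩ := exists_of_not_small hUns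
  exact hK A B hAc hBc hA hB (fun a ha b hb => hAU a ha b (hBU hb))

end Pool.Agent.Work.MP_44e7ab_co
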