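import Mathlib

set_option autoImplicit false

namespace Pool.Agent.Work.MP_44e7ab_co

open Finset Classical

universe u

/-- there is a walk from `x` to `y` inside `U` -/
def ConnIn {V : Type u} (G : SimpleGraph V) (U : Set V) (x y : V) : Prop :=
  ∃ p : G.Walk x y, ∀ z ∈ p.support, z ∈ U

/-- no induced path on `n` vertices -/
def NoPath {V : Type u} (G : SimpleGraph V) (n : ℕ) : Prop :=
  IsEmpty (SimpleGraph.pathGraph n ↪g G)

namespace ConnIn

variable {V : Type u} {G : SimpleGraph V} {U W : Set V} {x y z : V}

lemma refl (hx : x ∈ U) : ConnIn G U x x := ⟨SimpleGraph.Walk.nil, by simpa using hx⟩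

lemma symm (h : ConnIn G U x y) : ConnIn G U y x := by
  obtain ⟨p, hp⟩ := h
  exact ⟨p.reverse, fun z hz => hp z (by simpa using hz)⟩

lemma trans (h : ConnIn G U x y) (h' : ConnIn G U y z) : ConnIn G U x z := by
  obtain ⟨p, hp⟩ := h
  obtain ⟨q, hq⟩ := h'
  refine ⟨p.append q, ?_⟩
  intro w hw
  rw [SimpleGraph.Walk.mem_support_append_iff] at hw
  rcases hw with hw | hw
  · exact hp w hw
  · exact hq w hw

lemma mono (hUW : U ⊆ W) (h : ConnIn G U x y) : ConnIn G W x y := by
  obtain ⟨p, hp⟩ := h
  exact ⟨p, fun z hz => hUW (hp z hz)⟩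

lemma adj (h : G.Adj x y) (hx : x ∈ U) (hy : y ∈ U) : ConnIn G U x y := by
  refine ⟨h.toWalk, ?_⟩
  intro z hz
  simp only [SimpleGraph.Adj.toWalk, SimpleGraph.Walk.support_cons,
    SimpleGraph.Walk.support_nil, List.mem_cons, List.not_mem_nil, or_false] at hz
  rcases hz with rfl | rfl <;> assumption

lemma left_mem (h : ConnIn G U x y) : x ∈ U := by
  obtain ⟨p, hp⟩ := h
  exact hp _ p.start_mem_support

lemma right_mem (h : ConnIn G U x y) : y ∈ U := by
  obtain ⟨p, hp⟩ := h
  exact hp _ p.end_mem_support

end ConnIn

/-- In a graph without induced `n`-vertex path, connected vertices are joined by short walks. -/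
theorem short_walk {V : Type u} {G : SimpleGraph V} {n : ℕ} (hP : NoPath G n)
    {U : Set V} {x y : V} (h : ConnIn G U x y) :
    ∃ p : G.Walk x y, (∀ z ∈ p.support, z ∈ U) ∧ p.length + 1 < n := by
  obtain ⟨p0, hp0⟩ := h
  have hex : ∃ k, ∃ p : G.Walk x y, (∀ z ∈ p.support, z ∈ U) ∧ p.length = k := ⟨_, p0, hp0, rfl⟩
  obtain ⟨p, hp, hk⟩ := Nat.find_spec hex
  have hmin : ∀ q : G.Walk x y, (∀ z ∈ q.support, z ∈ U) → p.length ≤ q.length := by
    intro q hq
    rw [hk]
    exact Nat.find_min' hex ⟨q, hq, rfl⟩
  refine ⟨p, hp, ?_⟩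
  by_contra hlen
  push Not at hlen
  have hge : n ≤ p.length + 1 := hlen
  have htake : ∀ i, ∀ z ∈ (p.take i).support, z ∈ U := by
    intro i z hz
    rw [SimpleGraph.Walk.support_take] at hz
    exact hp z (List.mem_of_mem_take hz)
  have hdrop : ∀ i, ∀ z ∈ (p.drop i).support, z ∈ U := by
    intro i z hz
    rw [SimpleGraph.Walk.drop_support_eq_support_drop_min] at hz
    exact hp z (List.mem_of_mem_drop hz)
  -- no repetition
  have hne : ∀ i j, i < j → j ≤ p.length → p.getVert i ≠ p.getVert j := by
    intro i j hij hj heq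
    have := hmin ((p.take i).append ((p.drop j).copy heq.symm rfl)) (by
      intro z hz
      rw [SimpleGraph.Walk.mem_support_append_iff] at hz
      rcases hz with hz | hz
      · exact htake i z hz
      · rw [SimpleGraph.Walk.support_copy] at hz
        exact hdrop j z hz)
    rw [SimpleGraph.Walk.length_append, SimpleGraph.Walk.length_copy,
      SimpleGraph.Walk.take_length, SimpleGraph.Walk.drop_length] at this
    omega
  have hnadj : ∀ i j, i + 1 < j → j ≤ p.length → ¬ G.Adj (p.getVert i) (p.getVert j) := by
    intro i j hij hj hadj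
    have := hmin ((p.take i).append (SimpleGraph.Walk.cons hadj (p.drop j))) (by
      intro z hz
      rw [SimpleGraph.Walk.mem_support_append_iff] at hz
      rcases hz with hz | hz
      · exact htake i z hz
      · rw [SimpleGraph.Walk.support_cons, List.mem_cons] at hz
        rcases hz with rfl | hz
        · exact hp _ (SimpleGraph.Walk.getVert_mem_support _ _)
        · exact hdrop j z hz)
    rw [SimpleGraph.Walk.length_append, SimpleGraph.Walk.length_cons,
      SimpleGraph.Walk.take_length, SimpleGraph.Walk.drop_length] at this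
    omega
  have hinj : Function.Injective (fun i : Fin n => p.getVert i.val) := by
    intro i j hij
    simp only at hij
    by_contra hne'
    rcases Nat.lt_or_gt_of_ne (fun h => hne' (Fin.ext h)) with h | h
    · exact hne i.val j.val h (by omega) hij
    · exact hne j.val i.val h (by omega) hij.symm
  have hadj_iff : ∀ i j : Fin n, G.Adj (p.getVert i.val) (p.getVert j.val) ↔
      (SimpleGraph.pathGraph n).Adj i j := by
    intro i j
    rw [SimpleGraph.pathGraph_adj]
    constructor
    · intro hadj
      by_contra hcon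
      push Not at hcon
      rcases Nat.lt_trichotomy i.val j.val with h | h | h
      · exact hnadj i.val j.val (by omega) (by omega) hadj
      · rw [h] at hadj
        exact G.irrefl hadj
      · exact hnadj j.val i.val (by omega) (by omega) hadj.symm
    · intro h
      rcases h with h | h
      · rw [← h]
        exact p.adj_getVert_succ (by omega)
      · rw [← h]
        exact (p.adj_getVert_succ (by omega)).symm
  exact hP.false ⟨⟨fun i => p.getVert i.val, hinj⟩, fun {i j} => hadj_iff i j⟩

/-- Any walk whose vertices carry labels changing by at most one needs many steps. -/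
theorem lipschitz_walk {V : Type u} {G : SimpleGraph V} {U : Set V} (f : V → ℕ)
    (hf : ∀ u ∈ U, ∀ v ∈ U, G.Adj u v → f v ≤ f u + 1) {x y : V} (p : G.Walk x y)
    (hp : ∀ z ∈ p.support, z ∈ U) : f y ≤ f x + p.length := by
  induction p with
  | nil => simp
  | cons h q ih =>
    have h1 := ih (fun z hz => hp z (by simp [hz]))
    have h2 := hf _ (hp _ (by simp)) _ (hp _ (by simp)) h
    rw [SimpleGraph.Walk.length_cons]
    omega

end Pool.Agent.Work.MP_44e7ab_co
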