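import Mathlib

set_option autoImplicit false

namespace Pool.Agent.Work.MP_44e7ab_co

open Finset Classical

/-- finite two-player zero-sum minimax, one direction -/
theorem minimax_fin {Φ 𝒳 : Type*} [Fintype Φ] [Fintype 𝒳] [Nonempty Φ] [Nonempty 𝒳]
    (a : Φ → 𝒳 → ℝ) (η : ℝ)
    (h : ∀ l : 𝒳 → ℝ, (∀ x, 0 ≤ l x) → ∑ x, l x = 1 → ∃ φ, ∑ x, l x * a φ x ≤ η) :
    ∃ s : Φ → ℝ, (∀ φ, 0 ≤ s φ) ∧ ∑ φ, s φ = 1 ∧ ∀ x, ∑ φ, s φ * a φ x ≤ η := by
  let f : (Φ → ℝ) → (𝒳 → ℝ) → ℝ := fun s l => ∑ φ, ∑ x, s φ * (l x * a φ x)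
  have hcont1 : ∀ l, Continuous (fun s => f s l) := by
    intro l
    apply continuous_finsetSum
    intro φ _
    apply continuous_finsetSum
    intro x _
    exact (continuous_apply φ).mul continuous_const
  have hcont2 : ∀ s, Continuous (fun l => f s l) := by
    intro s
    apply continuous_finsetSum
    intro φ _
    apply continuous_finsetSum
    intro x _
    exact continuous_const.mul ((continuous_apply x).mul continuous_const)
  have hlin1 : ∀ l, ConvexOn ℝ (stdSimplex ℝ Φ) (fun s => f s l) := by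
    intro l
    refine ⟨convex_stdSimplex ℝ Φ, ?_⟩
    intro s _ t _ α β _ _ _
    apply le_of_eq
    simp only [f, smul_eq_mul, Pi.add_apply, Pi.smul_apply, Finset.mul_sum,
      ← Finset.sum_add_distrib]
    apply Finset.sum_congr rfl; intro φ _
    apply Finset.sum_congr rfl; intro x _
    ring
  have hlin2 : ∀ s, ConcaveOn ℝ (stdSimplex ℝ 𝒳) (fun l => f s l) := by
    intro s
    refine ⟨convex_stdSimplex ℝ 𝒳, ?_⟩
    intro l _ t _ α β _ _ _
    apply le_of_eq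
    simp only [f, smul_eq_mul, Pi.add_apply, Pi.smul_apply, Finset.mul_sum,
      ← Finset.sum_add_distrib]
    apply Finset.sum_congr rfl; intro φ _
    apply Finset.sum_congr rfl; intro x _
    ring
  obtain ⟨φ0⟩ := ‹Nonempty Φ›
  obtain ⟨x0⟩ := ‹Nonempty 𝒳›
  have hmemΦ : ∀ φ : Φ, (Pi.single φ 1 : Φ → ℝ) ∈ stdSimplex ℝ Φ := fun φ =>
    single_mem_stdSimplex ℝ φ
  have hmem𝒳 : ∀ x : 𝒳, (Pi.single x 1 : 𝒳 → ℝ) ∈ stdSimplex ℝ 𝒳 := fun x =>
    single_mem_stdSimplex ℝ x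
  obtain ⟨s, hs, l, hl, hsl⟩ := Sion.exists_isSaddlePointOn (X := stdSimplex ℝ Φ)
    (Y := stdSimplex ℝ 𝒳) (f := f)
    ⟨_, hmemΦ φ0⟩ (convex_stdSimplex ℝ Φ) (isCompact_stdSimplex ℝ Φ)
    (fun l _ => (hcont1 l).lowerSemicontinuous.lowerSemicontinuousOn _)
    (fun l _ => (hlin1 l).quasiconvexOn)
    (convex_stdSimplex ℝ 𝒳) ⟨_, hmem𝒳 x0⟩ (isCompact_stdSimplex ℝ 𝒳)
    (fun s _ => (hcont2 s).upperSemicontinuous.upperSemicontinuousOn _)
    (fun s _ => (hlin2 s).quasiconcaveOn)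
  refine ⟨s, hs.1, hs.2, ?_⟩
  intro x
  obtain ⟨φ, hφ⟩ := h l hl.1 hl.2
  have h1 := hsl _ (hmemΦ φ) _ (hmem𝒳 x)
  have h2 : f (Pi.single φ 1) l = ∑ x, l x * a φ x := by
    simp only [f]
    rw [Finset.sum_eq_single φ]
    · simp
    · intro ψ _ hψ
      simp [Pi.single_eq_of_ne hψ]
    · simp
  have h3 : f s (Pi.single x 1) = ∑ φ, s φ * a φ x := by
    simp only [f]
    apply Finset.sum_congr rfl
    intro ψ _
    rw [Finset.sum_eq_single x]
    · simp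
    · intro y _ hy
      simp [Pi.single_eq_of_ne hy]
    · simp
  rw [h2, h3] at h1
  linarith

end Pool.Agent.Work.MP_44e7ab_co
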