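import Mathlib
import Pool.Agent.Work.MP_44e7ab_co.Density
import Pool.Agent.Work.MP_44e7ab_co.Minimax
import Pool.Agent.Work.MP_44e7ab_co.Chain
import Pool.Agent.Work.MP_44e7ab_co.Geo

set_option autoImplicit false

namespace Pool.Agent.Work.MP_44e7ab_co

open Finset Classical

universe u

/-- two sets touch: they share a vertex or are joined by an edge -/
def Touch {V : Type u} (G : SimpleGraph V) (P Q : Finset V) : Prop :=
  ∃ u ∈ P, ∃ v ∈ Q, G.Adj u v ∨ u = v

/-- A chain of connected sets in which non-consecutive sets do not touch gives a long path. -/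
theorem no_chain {V : Type u} {G : SimpleGraph V} {n : ℕ} (hP : NoPath G n) {A : Type u}
    (R : A → A → Finset V) (w : A → V) (hconn : ∀ a b, ConnIn G (R a b : Set V) (w a) (w b))
    (x : Fin (n + 2) → A)
    (hx : ∀ (i j : ℕ) (hj : j + 1 < n + 2) (hij : i + 1 < j),
      ¬ Touch G (R (x ⟨i, by omega⟩) (x ⟨i + 1, by omega⟩)) (R (x ⟨j, by omega⟩) (x ⟨j + 1, hj⟩))) :
    False := by
  let P : ℕ → Finset V := fun i =>
    if h : i + 1 < n + 2 then R (x ⟨i, by omega⟩) (x ⟨i + 1, h⟩) else ∅
  let f : V → ℕ := fun v => ((range (n + 1)).filter (fun i => v ∈ P i)).sup id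
  let U : Set V := {v | ∃ i, i ≤ n ∧ v ∈ P i}
  have hPi : ∀ (i : ℕ) (h : i + 1 < n + 2), P i = R (x ⟨i, by omega⟩) (x ⟨i + 1, h⟩) := by
    intro i h
    simp only [P]
    rw [dif_pos h]
  have hntouch : ∀ i j, i + 1 < j → j ≤ n → ¬ Touch G (P i) (P j) := by
    intro i j hij hj
    rw [hPi i (by omega), hPi j (by omega)]
    exact hx i j (by omega) hij
  have hle : ∀ v i, i ≤ n → v ∈ P i → i ≤ f v := by
    intro v i hi hv
    simp only [f]
    exact Finset.le_sup (f := id) (Finset.mem_filter.mpr ⟨Finset.mem_range.mpr (by omega), hv⟩)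
  have hatt : ∀ v ∈ U, f v ≤ n ∧ v ∈ P (f v) := by
    rintro v ⟨i, hi, hv⟩
    have hne : ((range (n + 1)).filter (fun i => v ∈ P i)).Nonempty :=
      ⟨i, Finset.mem_filter.mpr ⟨Finset.mem_range.mpr (by omega), hv⟩⟩
    obtain ⟨j, hj, hjs⟩ := Finset.exists_mem_eq_sup _ hne id
    rw [Finset.mem_filter, Finset.mem_range] at hj
    have : f v = j := hjs
    rw [this]
    exact ⟨by omega, hj.2⟩
  -- connectivity
  have hcU : ∀ k, (hk : k ≤ n + 1) → ConnIn G U (w (x ⟨0, by omega⟩)) (w (x ⟨k, by omega⟩)) := by
    intro k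
    induction k with
    | zero =>
      intro _
      apply ConnIn.refl
      refine ⟨0, by omega, ?_⟩
      rw [hPi 0 (by omega)]
      exact_mod_cast (hconn (x ⟨0, by omega⟩) (x ⟨0 + 1, by omega⟩)).left_mem
    | succ k ih =>
      intro hk
      refine (ih (by omega)).trans ?_
      refine (hconn (x ⟨k, by omega⟩) (x ⟨k + 1, by omega⟩)).mono ?_
      intro v hv
      refine ⟨k, by omega, ?_⟩
      rw [hPi k (by omega)]
      exact_mod_cast hv
  obtain ⟨p, hpU, hplen⟩ := short_walk hP (hcU (n + 1) le_rfl)
  have hlip := lipschitz_walk (G := G) (U := U) f (by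
    intro a ha b hb hab
    by_contra hcon
    push Not at hcon
    obtain ⟨ha1, ha2⟩ := hatt a ha
    obtain ⟨hb1, hb2⟩ := hatt b hb
    exact hntouch (f a) (f b) hcon hb1 ⟨a, ha2, b, hb2, Or.inl hab⟩) p hpU
  have hend : n ≤ f (w (x ⟨n + 1, by omega⟩)) := by
    apply hle _ n le_rfl
    rw [hPi n (by omega)]
    exact_mod_cast (hconn (x ⟨n, by omega⟩) (x ⟨n + 1, by omega⟩)).right_mem
  have hstart : f (w (x ⟨0, by omega⟩)) ≤ 1 := by
    by_contra hcon
    push Not at hcon
    have h0 : w (x ⟨0, by omega⟩) ∈ P 0 := by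
      rw [hPi 0 (by omega)]
      exact_mod_cast (hconn (x ⟨0, by omega⟩) (x ⟨0 + 1, by omega⟩)).left_mem
    obtain ⟨h1, h2⟩ := hatt _ ⟨0, by omega, h0⟩
    exact hntouch 0 _ (by omega) h1 ⟨_, h0, _, h2, Or.inr rfl⟩
  omega

/-- Low-congestion routings by small connected sets are impossible. -/
theorem no_routing (n : ℕ) (hn : 2 ≤ n) : ∃ η : ℝ, 0 < η ∧
    ∀ (V : Type u) [Fintype V] (G : SimpleGraph V), NoPath G n → NoKnn G n →
    ∀ (A : Type u) [Fintype A] (p : A → ℝ), (∀ a, 0 ≤ p a) → ∑ a, p a = 1 →
    ∀ (R : A → A → Finset V) (w : A → V), (∀ a b, (R a b).card ≤ n) →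
      (∀ a b, ConnIn G (R a b : Set V) (w a) (w b)) →
      ¬ (∀ X : Finset V, Small G n X →
        ∑ a, ∑ b, p a * p b * (if Disjoint (R a b) X then 0 else 1) ≤ η) := by
  have hn' : (0 : ℝ) < n := by exact_mod_cast (by omega : 0 < n)
  set N : ℝ := ((n + 2 : ℕ) : ℝ) with hN
  have hN0 : 0 < N := by rw [hN]; positivity
  set ε : ℝ := 1 / (4 * N ^ 2 * n ^ 2) with hε
  have hε0 : 0 < ε := by positivity
  obtain ⟨η₀, hη₀, hdens⟩ := density.{u} n hn ε hε0
  refine ⟨min η₀ ε, lt_min hη₀ hε0, ?_⟩
  intro V _ G hP hK A _ p hp hp1 R w hcard hconn hcong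
  -- the occupation measure
  let q : V → ℝ := fun v => ∑ a, ∑ b, p a * p b * (if v ∈ R a b then 1 else 0)
  let μ : V → ℝ := fun v => (1 / n) * q v
  have hq0 : ∀ v, 0 ≤ q v := by
    intro v
    apply Finset.sum_nonneg; intro a _
    apply Finset.sum_nonneg; intro b _
    apply mul_nonneg (mul_nonneg (hp _) (hp _))
    split_ifs <;> norm_num
  have hμ0 : ∀ v, 0 ≤ μ v := fun v => mul_nonneg (by positivity) (hq0 v)
  have hmass : ∀ X : Finset V, m μ X = (1 / n) * ∑ a, ∑ b, p a * p b * ((R a b ∩ X).card : ℝ) := by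
    intro X
    unfold m
    simp only [μ, q]
    rw [← Finset.mul_sum]
    congr 1
    rw [Finset.sum_comm]
    apply Finset.sum_congr rfl; intro a _
    rw [Finset.sum_comm]
    apply Finset.sum_congr rfl; intro b _
    rw [← Finset.mul_sum]
    congr 1
    rw [Finset.sum_ite, Finset.sum_const_zero, add_zero, Finset.sum_const, nsmul_eq_mul, mul_one]
    congr 2
    ext v
    simp [and_comm]
  have hpp : ∑ a, ∑ b, p a * p b = 1 := by
    simp only [← Finset.mul_sum, hp1, mul_one]
  have hμ1 : m μ univ ≤ 1 := by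
    rw [hmass]
    have h1 : ∑ a, ∑ b, p a * p b * ((R a b ∩ univ).card : ℝ) ≤ ∑ a, ∑ b, p a * p b * n := by
      apply Finset.sum_le_sum; intro a _
      apply Finset.sum_le_sum; intro b _
      apply mul_le_mul_of_nonneg_left _ (mul_nonneg (hp _) (hp _))
      rw [Finset.inter_univ]
      exact_mod_cast hcard a b
    have h2 : ∑ a, ∑ b, p a * p b * (n : ℝ) = n := by
      simp only [← Finset.sum_mul]
      rw [hpp, one_mul]
    rw [h2] at h1
    calc (1 / (n : ℝ)) * _ ≤ (1 / (n : ℝ)) * n := mul_le_mul_of_nonneg_left h1 (by positivity)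
      _ = 1 := by field_simp
  have hsm : ∀ X : Finset V, Small G n X → m μ X ≤ min η₀ ε := by
    intro X hX
    refine le_trans ?_ (hcong X hX)
    rw [hmass, Finset.mul_sum]
    apply Finset.sum_le_sum; intro a _
    rw [Finset.mul_sum]
    apply Finset.sum_le_sum; intro b _
    have h1 : (1 / (n : ℝ)) * ((R a b ∩ X).card : ℝ) ≤ (if Disjoint (R a b) X then 0 else 1) := by
      split_ifs with hd
      · rw [Finset.disjoint_iff_inter_eq_empty] at hd
        rw [hd]; simp
      · have h2 : ((R a b ∩ X).card : ℝ) ≤ n := by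
          have := (Finset.card_le_card (Finset.inter_subset_left (s₁ := R a b) (s₂ := X))).trans (hcard a b)
          exact_mod_cast this
        rw [one_div, inv_mul_le_iff₀ hn']
        linarith
    calc (1 / (n : ℝ)) * (p a * p b * ((R a b ∩ X).card : ℝ))
        = p a * p b * ((1 / (n : ℝ)) * ((R a b ∩ X).card : ℝ)) := by ring
      _ ≤ _ := mul_le_mul_of_nonneg_left h1 (mul_nonneg (hp _) (hp _))
  have hE : E G μ univ univ ≤ ε := hdens V G hK μ hμ0 hμ1 (fun X hX => (hsm X hX).trans (min_le_left _ _))
  have hdiag : ∑ v, μ v * μ v ≤ ε := by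
    have hpt : ∀ v, μ v ≤ ε := by
      intro v
      have : m μ {v} ≤ min η₀ ε := by
        apply hsm
        intro I hI _
        have := Finset.card_le_card hI
        rw [Finset.card_singleton] at this
        omega
      have h2 : μ v ≤ min η₀ ε := by simpa [m] using this
      exact h2.trans (min_le_right _ _)
    calc ∑ v, μ v * μ v ≤ ∑ v, ε * μ v := by
          apply Finset.sum_le_sum
          intro v _
          exact mul_le_mul_of_nonneg_right (hpt v) (hμ0 v)
      _ = ε * m μ univ := by rw [← Finset.mul_sum]; rfl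
      _ ≤ ε * 1 := mul_le_mul_of_nonneg_left hμ1 hε0.le
      _ = ε := mul_one _
  -- probability of touching
  have hT : ∑ a, ∑ b, ∑ c, ∑ d, p a * p b * (p c * p d) *
      (if Touch G (R a b) (R c d) then 1 else 0) ≤ n ^ 2 * (2 * ε) := by
    have h1 : ∀ a b c d, (if Touch G (R a b) (R c d) then (1 : ℝ) else 0) ≤
        ∑ u, ∑ v, (if u ∈ R a b then 1 else 0) * (if v ∈ R c d then 1 else 0) *
          ((if G.Adj u v then 1 else 0) + (if u = v then 1 else 0)) := by
      intro a b c d
      have hnn : ∀ u v : V, (0 : ℝ) ≤ (if u ∈ R a b then 1 else 0) * (if v ∈ R c d then 1 else 0) *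
          ((if G.Adj u v then 1 else 0) + (if u = v then 1 else 0)) := by
        intro u v
        apply mul_nonneg
        · apply mul_nonneg <;> split_ifs <;> norm_num
        · apply add_nonneg <;> split_ifs <;> norm_num
      split_ifs with ht
      · obtain ⟨u, hu, v, hv, huv⟩ := ht
        have h2 : (1 : ℝ) ≤ (if u ∈ R a b then 1 else 0) * (if v ∈ R c d then 1 else 0) *
          ((if G.Adj u v then 1 else 0) + (if u = v then 1 else 0)) := by
          rw [if_pos hu, if_pos hv]
          rcases huv with h | h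
          · rw [if_pos h]
            have : (0 : ℝ) ≤ (if u = v then 1 else 0) := by split_ifs <;> norm_num
            linarith
          · rw [if_pos h]
            have : (0 : ℝ) ≤ (if G.Adj u v then 1 else 0) := by split_ifs <;> norm_num
            linarith
        refine h2.trans ?_
        refine (Finset.single_le_sum (f := fun v => (if u ∈ R a b then (1 : ℝ) else 0) *
          (if v ∈ R c d then 1 else 0) * ((if G.Adj u v then 1 else 0) + (if u = v then 1 else 0)))
          (fun v _ => hnn u v) (mem_univ v)).trans ?_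
        exact Finset.single_le_sum (f := fun u => ∑ v, (if u ∈ R a b then (1 : ℝ) else 0) *
          (if v ∈ R c d then 1 else 0) * ((if G.Adj u v then 1 else 0) + (if u = v then 1 else 0)))
          (fun u _ => Finset.sum_nonneg fun v _ => hnn u v) (mem_univ u)
      · exact Finset.sum_nonneg fun u _ => Finset.sum_nonneg fun v _ => hnn u v
    have h2 : ∑ a, ∑ b, ∑ c, ∑ d, p a * p b * (p c * p d) *
        (∑ u, ∑ v, (if u ∈ R a b then (1 : ℝ) else 0) * (if v ∈ R c d then 1 else 0) *
          ((if G.Adj u v then 1 else 0) + (if u = v then 1 else 0)))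
        = ∑ u, ∑ v, q u * q v * ((if G.Adj u v then 1 else 0) + (if u = v then 1 else 0)) := by
      have e1 : ∀ u v : V, q u * q v * ((if G.Adj u v then (1 : ℝ) else 0) + (if u = v then 1 else 0))
          = ∑ a, ∑ b, ∑ c, ∑ d, p a * p b * (p c * p d) * ((if u ∈ R a b then (1 : ℝ) else 0) *
            (if v ∈ R c d then 1 else 0) * ((if G.Adj u v then 1 else 0) + (if u = v then 1 else 0))) := by
        intro u v
        rw [show q u = ∑ a, ∑ b, p a * p b * (if u ∈ R a b then 1 else 0) from rfl, mul_assoc,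
          Finset.sum_mul]
        apply Finset.sum_congr rfl; intro a _
        rw [Finset.sum_mul]
        apply Finset.sum_congr rfl; intro b _
        rw [show q v = ∑ a, ∑ b, p a * p b * (if v ∈ R a b then 1 else 0) from rfl,
          Finset.sum_mul, Finset.mul_sum]
        apply Finset.sum_congr rfl; intro c _
        rw [Finset.sum_mul, Finset.mul_sum]
        apply Finset.sum_congr rfl; intro d _
        ring
      simp only [e1]
      simp only [Finset.mul_sum]
      -- move the sums over u, v outside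
      have e2 : ∀ (F : A → A → A → A → V → V → ℝ),
          ∑ a, ∑ b, ∑ c, ∑ d, ∑ u, ∑ v, F a b c d u v
            = ∑ u, ∑ v, ∑ a, ∑ b, ∑ c, ∑ d, F a b c d u v := by
        intro F
        have s1 : ∀ (H : A → V → V → ℝ), ∑ a, ∑ u, ∑ v, H a u v = ∑ u, ∑ v, ∑ a, H a u v := by
          intro H
          rw [Finset.sum_comm]
          apply Finset.sum_congr rfl; intro u _
          rw [Finset.sum_comm]
        calc _ = ∑ a, ∑ b, ∑ c, ∑ u, ∑ v, ∑ d, F a b c d u v := by
              apply Finset.sum_congr rfl; intro a _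
              apply Finset.sum_congr rfl; intro b _
              apply Finset.sum_congr rfl; intro c _
              exact s1 _
          _ = ∑ a, ∑ b, ∑ u, ∑ v, ∑ c, ∑ d, F a b c d u v := by
              apply Finset.sum_congr rfl; intro a _
              apply Finset.sum_congr rfl; intro b _
              exact s1 _
          _ = ∑ a, ∑ u, ∑ v, ∑ b, ∑ c, ∑ d, F a b c d u v := by
              apply Finset.sum_congr rfl; intro a _
              exact s1 _
          _ = _ := s1 _
      exact e2 _
    have h3 : ∑ u, ∑ v, q u * q v * ((if G.Adj u v then (1 : ℝ) else 0) + (if u = v then 1 else 0))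
        = n ^ 2 * (E G μ univ univ + ∑ v, μ v * μ v) := by
      have hqμ : ∀ v, q v = n * μ v := by
        intro v
        simp only [μ]
        field_simp
      unfold E
      rw [mul_add, Finset.mul_sum, Finset.mul_sum, ← Finset.sum_add_distrib]
      apply Finset.sum_congr rfl; intro u _
      simp only [mul_add, Finset.sum_add_distrib]
      congr 1
      · rw [Finset.mul_sum]
        apply Finset.sum_congr rfl; intro v _
        rw [hqμ u, hqμ v]
        split_ifs
        · ring
        · ring
      · have : ∀ v, q u * q v * (if u = v then (1 : ℝ) else 0) = if u = v then q u * q u else 0 := by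
          intro v
          split_ifs with h
          · rw [h]; ring
          · ring
        simp only [this]
        rw [Finset.sum_ite_eq, if_pos (mem_univ u), hqμ u]
        ring
    calc _ ≤ ∑ a, ∑ b, ∑ c, ∑ d, p a * p b * (p c * p d) *
        (∑ u, ∑ v, (if u ∈ R a b then (1 : ℝ) else 0) * (if v ∈ R c d then 1 else 0) *
          ((if G.Adj u v then 1 else 0) + (if u = v then 1 else 0))) := by
          apply Finset.sum_le_sum; intro a _
          apply Finset.sum_le_sum; intro b _
          apply Finset.sum_le_sum; intro c _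
          apply Finset.sum_le_sum; intro d _
          exact mul_le_mul_of_nonneg_left (h1 a b c d)
            (mul_nonneg (mul_nonneg (hp _) (hp _)) (mul_nonneg (hp _) (hp _)))
      _ = n ^ 2 * (E G μ univ univ + ∑ v, μ v * μ v) := by rw [h2, h3]
      _ ≤ n ^ 2 * (2 * ε) := by
          apply mul_le_mul_of_nonneg_left _ (by positivity)
          linarith
  obtain ⟨x, hx⟩ := chain p hp hp1 (fun a b c d => Touch G (R a b) (R c d)) _ hT (n + 2) (by
    have : ((n + 2 : ℕ) : ℝ) ^ 2 * (n ^ 2 * (2 * ε)) = 1 / 2 := by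
      rw [hε, hN]
      field_simp
      norm_num
    rw [this]; norm_num)
  exact no_chain hP R w hconn x hx

end Pool.Agent.Work.MP_44e7ab_co
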