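import Mathlib
import Pool.Agent.Work.MP_44e7ab_co.Route

set_option autoImplicit false

namespace Pool.Agent.Work.MP_44e7ab_co

open Finset Classical

universe u

/-- every independent subset of `S` has at most `s` elements -/
def AlphaLE {V : Type u} (G : SimpleGraph V) (S : Finset V) (s : ℕ) : Prop :=
  ∀ I : Finset V, I ⊆ S → G.IsIndepSet (I : Set V) → I.card ≤ s

/-- `D` is connected -/
def ConnSet {V : Type u} (G : SimpleGraph V) (D : Finset V) : Prop :=
  ∀ x ∈ D, ∀ y ∈ D, ConnIn G (D : Set V) x y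

lemma exists_route {V : Type u} {G : SimpleGraph V} {n : ℕ} (hP : NoPath G n) {U : Finset V}
    {x y : V} (h : ConnIn G (U : Set V) x y) :
    ∃ P : Finset V, P ⊆ U ∧ P.card < n ∧ ConnIn G (P : Set V) x y := by
  obtain ⟨p, hp, hlen⟩ := short_walk hP h
  refine ⟨p.support.toFinset, ?_, ?_, p, ?_⟩
  · intro z hz
    exact_mod_cast hp z (by simpa using hz)
  · refine lt_of_le_of_lt (List.toFinset_card_le _) ?_
    rw [SimpleGraph.Walk.length_support]
    exact hlen
  · intro z hz
    simpa using hz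

/-- **Main separation lemma.** -/
theorem main_sep (n : ℕ) (hn : 2 ≤ n) : ∃ s0 K : ℕ, 1 ≤ K ∧
    ∀ (V : Type u) [Fintype V] (G : SimpleGraph V), NoPath G n → NoKnn G n →
    ∀ J : Finset V, J.card = K → ∃ (S : Finset V) (s : ℕ), s ≤ s0 ∧ AlphaLE G S s ∧
      ∀ D : Finset V, ConnSet G D → Disjoint D S → 2 * s + 1 ≤ (J \ D).card := by
  obtain ⟨η, hη, hroute⟩ := no_routing.{u} n hn
  have hn' : (0 : ℝ) < n := by exact_mod_cast (by omega : 0 < n)
  set θ : ℝ := η / (2 * n) with hθ
  have hθ0 : 0 < θ := by positivity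
  set s0 : ℕ := ⌊(n : ℝ) / θ⌋₊ with hs0
  set K : ℕ := ⌈8 * s0 / η⌉₊ + 1 with hKdef
  have hK0 : (0 : ℝ) < K := by rw [hKdef]; positivity
  have hKη : 4 * (s0 : ℝ) / K ≤ η / 2 := by
    have h1 : 8 * (s0 : ℝ) / η ≤ K := by
      rw [hKdef]
      push_cast
      have := Nat.le_ceil (8 * (s0 : ℝ) / η)
      linarith
    rw [div_le_iff₀ hη] at h1
    rw [div_le_iff₀ hK0]
    linarith
  refine ⟨s0, K, by omega, ?_⟩
  intro V _ G hP hKnn J hJ
  by_contra hcon
  push Not at hcon
  -- for all small separators there is a big connected set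
  have hbig : ∀ (S : Finset V) (s : ℕ), s ≤ s0 → AlphaLE G S s →
      ∃ D : Finset V, ConnSet G D ∧ Disjoint D S ∧ (J \ D).card ≤ 2 * s := by
    intro S s hs hS
    obtain ⟨D, h1, h2, h3⟩ := hcon S s hs hS
    exact ⟨D, h1, h2, by omega⟩
  let JT : Type u := {w : V // w ∈ J}
  have hcardJT : (Fintype.card JT : ℝ) = K := by
    rw [Fintype.card_coe, hJ]
  let Φ : Type u := {φ : JT → JT → Finset V // ∀ w w', (φ w w').card < n ∧
    ConnIn G (φ w w' : Set V) w.1 w'.1}
  let XT : Type u := {X : Finset V // Small G n X}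
  -- a default routing
  obtain ⟨D0, hD0, -, hD0J⟩ := hbig ∅ 0 (by omega) (by
    intro I hI _
    rw [Finset.subset_empty] at hI
    simp [hI])
  have hJD0 : ∀ w ∈ J, w ∈ D0 := by
    intro w hw
    by_contra hw'
    have : w ∈ J \ D0 := Finset.mem_sdiff.mpr ⟨hw, hw'⟩
    have h2 := Finset.card_pos.mpr ⟨w, this⟩
    omega
  have hdef : ∀ w w' : JT, ∃ P : Finset V, P.card < n ∧ ConnIn G (P : Set V) w.1 w'.1 := by
    intro w w'
    obtain ⟨P, -, h1, h2⟩ := exists_route hP (hD0 w.1 (hJD0 _ w.2) w'.1 (hJD0 _ w'.2))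
    exact ⟨P, h1, h2⟩
  choose φ0 hφ0 using hdef
  have : Nonempty Φ := ⟨⟨φ0, hφ0⟩⟩
  have : Nonempty XT := ⟨⟨∅, by
    intro I hI _
    rw [Finset.subset_empty] at hI
    rw [hI, Finset.card_empty]
    omega⟩⟩
  let hit : Finset V → Finset V → ℝ := fun P X => if Disjoint P X then 0 else 1
  have hhit0 : ∀ P X, 0 ≤ hit P X := by
    intro P X; simp only [hit]; split_ifs <;> norm_num
  have hhit1 : ∀ P X, hit P X ≤ 1 := by
    intro P X; simp only [hit]; split_ifs <;> norm_num
  let a : Φ → XT → ℝ := fun φ X => (1 / (K : ℝ) ^ 2) * ∑ w, ∑ w', hit (φ.1 w w') X.1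
  obtain ⟨σ, hσ0, hσ1, hσ⟩ := minimax_fin a η (by
    intro l hl0 hl1
    let lam : V → ℝ := fun v => ∑ X : XT, l X * (if v ∈ X.1 then 1 else 0)
    let S : Finset V := univ.filter (fun v => θ ≤ lam v)
    have hSα : AlphaLE G S s0 := by
      intro I hIS hI
      apply Nat.le_floor
      rw [le_div_iff₀ hθ0]
      calc (I.card : ℝ) * θ = ∑ _v ∈ I, θ := by rw [Finset.sum_const, nsmul_eq_mul]
        _ ≤ ∑ v ∈ I, lam v := by
            apply Finset.sum_le_sum
            intro v hv
            exact (Finset.mem_filter.mp (hIS hv)).2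
        _ = ∑ X : XT, l X * ((I ∩ X.1).card : ℝ) := by
            simp only [lam]
            rw [Finset.sum_comm]
            apply Finset.sum_congr rfl
            intro X _
            rw [← Finset.mul_sum]
            congr 1
            rw [Finset.sum_ite, Finset.sum_const_zero, add_zero, Finset.sum_const, nsmul_eq_mul,
              mul_one]
            congr 2
        _ ≤ ∑ X : XT, l X * n := by
            apply Finset.sum_le_sum
            intro X _
            apply mul_le_mul_of_nonneg_left _ (hl0 X)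
            have := X.2 (I ∩ X.1) Finset.inter_subset_right
              (hI.mono (by simp))
            exact_mod_cast this.le
        _ = n := by rw [← Finset.sum_mul, hl1, one_mul]
    obtain ⟨D, hD, hDS, hDJ⟩ := hbig S s0 le_rfl hSα
    have hr : ∀ w w' : JT, ∃ P : Finset V, (P.card < n ∧ ConnIn G (P : Set V) w.1 w'.1) ∧
        ((w.1 ∈ D ∧ w'.1 ∈ D) → P ⊆ D) := by
      intro w w'
      by_cases h : w.1 ∈ D ∧ w'.1 ∈ D
      · obtain ⟨P, h0, h1, h2⟩ := exists_route hP (hD w.1 h.1 w'.1 h.2)
        exact ⟨P, ⟨h1, h2⟩, fun _ => h0⟩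
      · exact ⟨φ0 w w', hφ0 w w', fun h' => absurd h' h⟩
    choose φ hφ1 hφ2 using hr
    refine ⟨⟨φ, hφ1⟩, ?_⟩
    -- the cost of a set
    let cost : Finset V → ℝ := fun P => ∑ X : XT, l X * hit P X.1
    have hcost1 : ∀ P, cost P ≤ 1 := by
      intro P
      calc cost P ≤ ∑ X : XT, l X * 1 := by
            apply Finset.sum_le_sum
            intro X _
            exact mul_le_mul_of_nonneg_left (hhit1 _ _) (hl0 X)
        _ = 1 := by simpa using hl1
    have hcostD : ∀ P : Finset V, P ⊆ D → P.card < n → cost P ≤ n * θ := by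
      intro P hPD hPn
      calc cost P ≤ ∑ X : XT, l X * ∑ v ∈ P, (if v ∈ X.1 then (1 : ℝ) else 0) := by
            apply Finset.sum_le_sum
            intro X _
            apply mul_le_mul_of_nonneg_left _ (hl0 X)
            simp only [hit]
            split_ifs with hd
            · exact Finset.sum_nonneg fun v _ => by split_ifs <;> norm_num
            · rw [Finset.not_disjoint_iff] at hd
              obtain ⟨v, hv, hvX⟩ := hd
              refine le_trans (le_of_eq (if_pos hvX).symm)
                (Finset.single_le_sum (f := fun v => (if v ∈ X.1 then (1 : ℝ) else 0))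
                (fun v _ => ?_) hv)
              show (0 : ℝ) ≤ (if v ∈ X.1 then (1 : ℝ) else 0)
              split_ifs <;> norm_num
        _ = ∑ v ∈ P, lam v := by
            simp only [lam, Finset.mul_sum]
            rw [Finset.sum_comm]
        _ ≤ ∑ _v ∈ P, θ := by
            apply Finset.sum_le_sum
            intro v hv
            by_contra hlt
            push Not at hlt
            have h1 : v ∈ S := Finset.mem_filter.mpr ⟨mem_univ v, hlt.le⟩
            exact (Finset.disjoint_left.mp hDS (hPD hv)) h1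
        _ = P.card * θ := by rw [Finset.sum_const, nsmul_eq_mul]
        _ ≤ n * θ := by
            apply mul_le_mul_of_nonneg_right _ hθ0.le
            exact_mod_cast hPn.le
    -- rewrite the payoff
    have hpay : ∑ X : XT, l X * a ⟨φ, hφ1⟩ X = (1 / (K : ℝ) ^ 2) * ∑ w, ∑ w', cost (φ w w') := by
      simp only [a, cost]
      have h1 : ∀ X : XT, l X * ((1 / (K : ℝ) ^ 2) * ∑ w, ∑ w', hit (φ w w') X.1)
          = (1 / (K : ℝ) ^ 2) * ∑ w, ∑ w', l X * hit (φ w w') X.1 := by
        intro X
        simp only [← Finset.mul_sum]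
        ring
      rw [Finset.sum_congr rfl (fun X _ => h1 X), ← Finset.mul_sum]
      congr 1
      rw [Finset.sum_comm]
      apply Finset.sum_congr rfl; intro w _
      rw [Finset.sum_comm]
    rw [hpay]
    have hpt : ∀ w w' : JT, cost (φ w w') ≤ n * θ +
        ((if w.1 ∈ D then 0 else 1) + (if w'.1 ∈ D then 0 else 1)) := by
      intro w w'
      have hnθ : 0 ≤ (n : ℝ) * θ := by positivity
      by_cases h1 : w.1 ∈ D
      · by_cases h2 : w'.1 ∈ D
        · rw [if_pos h1, if_pos h2]
          have := hcostD (φ w w') (hφ2 w w' ⟨h1, h2⟩) (hφ1 w w').1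
          linarith
        · rw [if_pos h1, if_neg h2]
          have := hcost1 (φ w w')
          linarith
      · rw [if_neg h1]
        have h3 : (0 : ℝ) ≤ (if w'.1 ∈ D then 0 else 1) := by split_ifs <;> norm_num
        have := hcost1 (φ w w')
        linarith
    have hcnt : ∑ w : JT, (if w.1 ∈ D then (0 : ℝ) else 1) = ((J \ D).card : ℝ) := by
      rw [Finset.sum_coe_sort J (fun w => if w ∈ D then (0 : ℝ) else 1), Finset.sum_ite,
        Finset.sum_const_zero, zero_add, Finset.sum_const, nsmul_eq_mul, mul_one]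
      congr 2
      ext v
      simp [Finset.mem_sdiff]
    have hsum : ∑ w, ∑ w', cost (φ w w') ≤ K ^ 2 * (n * θ) + 2 * K * ((J \ D).card : ℝ) := by
      calc ∑ w, ∑ w', cost (φ w w') ≤ ∑ w : JT, ∑ w' : JT, ((n * θ) +
          ((if w.1 ∈ D then 0 else 1) + (if w'.1 ∈ D then 0 else 1))) := by
            apply Finset.sum_le_sum; intro w _
            apply Finset.sum_le_sum; intro w' _
            exact hpt w w'
        _ = K ^ 2 * (n * θ) + 2 * K * ((J \ D).card : ℝ) := by
            simp only [Finset.sum_add_distrib, Finset.sum_const, Finset.card_univ, nsmul_eq_mul,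
              ← Finset.mul_sum, hcnt]
            rw [hcardJT]
            ring
    have hDJ' : ((J \ D).card : ℝ) ≤ 2 * s0 := by exact_mod_cast hDJ
    calc (1 / (K : ℝ) ^ 2) * ∑ w, ∑ w', cost (φ w w')
        ≤ (1 / (K : ℝ) ^ 2) * (K ^ 2 * (n * θ) + 2 * K * (2 * s0)) := by
          apply mul_le_mul_of_nonneg_left _ (by positivity)
          refine hsum.trans ?_
          have : 2 * (K : ℝ) * ((J \ D).card : ℝ) ≤ 2 * K * (2 * s0) :=
            mul_le_mul_of_nonneg_left hDJ' (by positivity)
          linarith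
      _ = n * θ + 4 * s0 / K := by field_simp; ring
      _ ≤ η / 2 + η / 2 := by
          have : (n : ℝ) * θ = η / 2 := by rw [hθ]; field_simp
          rw [this]
          linarith
      _ = η := by ring)
  -- now the random routing
  let A : Type u := JT × Φ
  let p : A → ℝ := fun x => σ x.2 / K
  have hp0 : ∀ x, 0 ≤ p x := fun x => div_nonneg (hσ0 _) hK0.le
  have hp1 : ∑ x, p x = 1 := by
    simp only [p]
    rw [Fintype.sum_prod_type]
    simp only [← Finset.sum_div]
    rw [hσ1, Finset.sum_const, Finset.card_univ, nsmul_eq_mul, hcardJT]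
    field_simp
  refine hroute V G hP hKnn A p hp0 hp1 (fun x y => x.2.1 x.1 y.1) (fun x => x.1.1)
    (fun x y => (x.2.2 x.1 y.1).1.le) (fun x y => (x.2.2 x.1 y.1).2) ?_
  intro X hX
  have h1 := hσ ⟨X, hX⟩
  refine le_trans (le_of_eq ?_) h1
  simp only [p, a, hit]
  have e0 : ∑ x : A, ∑ y : A, σ x.2 / K * (σ y.2 / K) *
      (if Disjoint (x.2.1 x.1 y.1) X then (0 : ℝ) else 1) =
      ∑ w : JT, ∑ φ : Φ, ∑ w' : JT, ∑ φ' : Φ, σ φ / K * (σ φ' / K) *
      (if Disjoint (φ.1 w w') X then (0 : ℝ) else 1) := by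
    rw [Fintype.sum_prod_type]
    apply Finset.sum_congr rfl; intro w _
    apply Finset.sum_congr rfl; intro φ _
    rw [Fintype.sum_prod_type]
  rw [e0]
  have e1 : ∀ (w : JT) (φ : Φ), ∑ w' : JT, ∑ φ' : Φ, σ φ / K * (σ φ' / K) *
      (if Disjoint (φ.1 w w') X then (0 : ℝ) else 1)
      = σ φ * ((1 / (K : ℝ) ^ 2) * ∑ w' : JT, (if Disjoint (φ.1 w w') X then (0 : ℝ) else 1)) := by
    intro w φ
    rw [Finset.mul_sum, Finset.mul_sum]
    apply Finset.sum_congr rfl; intro w' _
    have : ∀ φ' : Φ, σ φ / K * (σ φ' / K) * (if Disjoint (φ.1 w w') X then (0 : ℝ) else 1)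
        = σ φ' * (σ φ / K ^ 2 * (if Disjoint (φ.1 w w') X then (0 : ℝ) else 1)) := by
      intro φ'
      field_simp
    rw [Finset.sum_congr rfl (fun φ' _ => this φ'), ← Finset.sum_mul, hσ1]
    field_simp
  simp only [e1]
  rw [Finset.sum_comm]
  apply Finset.sum_congr rfl; intro φ _
  rw [← Finset.mul_sum, ← Finset.mul_sum]

end Pool.Agent.Work.MP_44e7ab_co
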