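import Mathlib
import Pool.Agent.Work.MP_44e7ab_co.Sep

set_option autoImplicit false

namespace Pool.Agent.Work.MP_44e7ab_co

open Finset Classical

universe u

/-- adding a leaf to a tree -/
theorem isTree_add_leaf {ι : Type} [Fintype ι] (T : SimpleGraph ι) (hT : T.IsTree) (t0 : ι) :
    (T.map (Function.Embedding.some : ι ↪ Option ι) ⊔ SimpleGraph.edge none (some t0)).IsTree := by
  rw [SimpleGraph.isTree_iff_connected_and_card] at hT ⊢
  obtain ⟨hc, hcard⟩ := hT
  set T' := T.map (Function.Embedding.some : ι ↪ Option ι) ⊔ SimpleGraph.edge none (some t0)
    with hT'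
  have hadj : ∀ a b : ι, T.Adj a b → T'.Adj (some a) (some b) := by
    intro a b hab
    rw [hT', SimpleGraph.sup_adj]
    left
    rw [SimpleGraph.map_adj]
    exact ⟨a, b, hab, rfl, rfl⟩
  have h0 : T'.Adj none (some t0) := by
    rw [hT', SimpleGraph.sup_adj]
    right
    rw [SimpleGraph.edge_adj]
    simp
  let φ : T →g T' := ⟨some, fun {a b} h => hadj a b h⟩
  have hr : ∀ x : Option ι, T'.Reachable x (some t0) := by
    intro x
    cases x with
    | none => exact h0.reachable
    | some a => exact (hc.preconnected a t0).map φ
  constructor
  · refine ⟨fun x y => (hr x).trans (hr y).symm⟩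
  · have hes : T'.edgeSet = (Function.Embedding.some.sym2Map '' T.edgeSet) ∪
        {s((none : Option ι), some t0)} := by
      rw [hT', SimpleGraph.edgeSet_sup, SimpleGraph.edgeSet_map,
        SimpleGraph.edgeSet_edge_of_ne (by simp)]
    rw [hes, Nat.card_eq_card_toFinset, Nat.card_eq_fintype_card, Fintype.card_option]
    rw [← Set.ncard_eq_toFinset_card', Set.ncard_union_eq, Set.ncard_singleton,
      Set.ncard_image_of_injective _ (Function.Embedding.injective _)]
    · rw [Nat.card_eq_fintype_card (α := ι)] at hcard
      rw [← hcard]
      rfl
    · rw [Set.disjoint_singleton_right]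
      rintro ⟨e, he, h⟩
      induction e with
      | h a b =>
        simp only [Function.Embedding.sym2Map_apply, Sym2.map_mk] at h
        rw [Sym2.eq_iff] at h
        rcases h with ⟨h, -⟩ | ⟨-, h⟩ <;> exact absurd h (by simp)

/-- tree decompositions of the part `U` of `G`, all bags having independence number at most `k`,
in which every set of `𝓒` is contained in some bag -/
def HasTD {V : Type u} (G : SimpleGraph V) (k : ℕ) (U : Finset V) (𝓒 : Finset (Finset V)) :
    Prop :=
  ∃ (ι : Type) (_ : Fintype ι) (T : SimpleGraph ι) (X : ι → Finset V),
    T.IsTree ∧ (∀ t, X t ⊆ U) ∧ (∀ v ∈ U, ∃ t, v ∈ X t) ∧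
    (∀ u ∈ U, ∀ v ∈ U, G.Adj u v → ∃ t, u ∈ X t ∧ v ∈ X t) ∧
    (∀ v, ∀ s t, v ∈ X s → v ∈ X t → ConnIn T {x | v ∈ X x} s t) ∧
    (∀ t, AlphaLE G (X t) k) ∧ (∀ C ∈ 𝓒, ∃ t, C ⊆ X t)

lemma HasTD.anti {V : Type u} {G : SimpleGraph V} {k : ℕ} {U : Finset V}
    {𝓒 𝓒' : Finset (Finset V)} (h : HasTD G k U 𝓒) (hs : 𝓒' ⊆ 𝓒) : HasTD G k U 𝓒' := by
  obtain ⟨ι, hι, T, X, h1, h2, h3, h4, h5, h6, h7⟩ := h
  exact ⟨ι, hι, T, X, h1, h2, h3, h4, h5, h6, fun C hC => h7 C (hs hC)⟩

theorem hasTD_empty {V : Type u} (G : SimpleGraph V) (k : ℕ) : HasTD G k ∅ {∅} := by
  refine ⟨Unit, inferInstance, ⊥, fun _ => ∅, ?_, ?_, ?_, ?_, ?_, ?_, ?_⟩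
  · rw [SimpleGraph.isTree_iff_connected_and_card]
    constructor
    · refine ⟨fun x y => ?_⟩
      rw [Subsingleton.elim x y]
    · simp
  · simp
  · simp
  · simp
  · simp
  · intro t I hI _
    rw [Finset.subset_empty] at hI
    simp [hI]
  · simp

theorem add_leaf {V : Type u} {G : SimpleGraph V} {k : ℕ} {U : Finset V}
    {𝓒 : Finset (Finset V)} (h : HasTD G k U 𝓒) {C B : Finset V} (hC : C ∈ 𝓒)
    (hBC : B ∩ U ⊆ C) (hno : ∀ b ∈ B, b ∉ U → ∀ x ∈ U, G.Adj b x → x ∈ B)
    (hB : AlphaLE G B k) : HasTD G k (U ∪ B) (insert B 𝓒) := by
  obtain ⟨ι, hι, T, X, h1, h2, h3, h4, h5, h6, h7⟩ := h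
  obtain ⟨t0, ht0⟩ := h7 C hC
  set T' := T.map (Function.Embedding.some : ι ↪ Option ι) ⊔ SimpleGraph.edge none (some t0)
    with hT'
  let X' : Option ι → Finset V := fun t => Option.elim t B X
  have hadj : ∀ a b : ι, T.Adj a b → T'.Adj (some a) (some b) := by
    intro a b hab
    rw [hT', SimpleGraph.sup_adj]
    left
    rw [SimpleGraph.map_adj]
    exact ⟨a, b, hab, rfl, rfl⟩
  have h0 : T'.Adj none (some t0) := by
    rw [hT', SimpleGraph.sup_adj]
    right
    rw [SimpleGraph.edge_adj]
    simp
  let φ : T →g T' := ⟨some, fun {a b} h => hadj a b h⟩
  have hsome : ∀ v s t, v ∈ X s → v ∈ X t → ConnIn T' {x | v ∈ X' x} (some s) (some t) := by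
    intro v s t hs ht
    obtain ⟨p, hp⟩ := h5 v s t hs ht
    refine ⟨p.map φ, ?_⟩
    intro z hz
    rw [SimpleGraph.Walk.support_map, List.mem_map] at hz
    obtain ⟨a, ha, rfl⟩ := hz
    exact hp a ha
  have hnone : ∀ v t, v ∈ B → v ∈ X t → ConnIn T' {x | v ∈ X' x} none (some t) := by
    intro v t hv ht
    have hv0 : v ∈ X t0 := ht0 (hBC (Finset.mem_inter.mpr ⟨hv, h2 t ht⟩))
    exact (ConnIn.adj h0 (by exact hv) (by exact hv0)).trans (hsome v t0 t hv0 ht)
  refine ⟨Option ι, inferInstance, T', X', isTree_add_leaf T h1 t0, ?_, ?_, ?_, ?_, ?_, ?_⟩
  · intro t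
    cases t with
    | none => exact Finset.subset_union_right
    | some a => exact (h2 a).trans Finset.subset_union_left
  · intro v hv
    rcases Finset.mem_union.mp hv with hv | hv
    · obtain ⟨t, ht⟩ := h3 v hv
      exact ⟨some t, ht⟩
    · exact ⟨none, hv⟩
  · intro a ha b hb hab
    by_cases haU : a ∈ U
    · by_cases hbU : b ∈ U
      · obtain ⟨t, ht⟩ := h4 a haU b hbU hab
        exact ⟨some t, ht⟩
      · have hbB : b ∈ B := by
          rcases Finset.mem_union.mp hb with hb | hb
          · exact absurd hb hbU
          · exact hb
        exact ⟨none, hno b hbB hbU a haU hab.symm, hbB⟩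
    · have haB : a ∈ B := by
        rcases Finset.mem_union.mp ha with ha | ha
        · exact absurd ha haU
        · exact ha
      by_cases hbU : b ∈ U
      · exact ⟨none, haB, hno a haB haU b hbU hab⟩
      · have hbB : b ∈ B := by
          rcases Finset.mem_union.mp hb with hb | hb
          · exact absurd hb hbU
          · exact hb
        exact ⟨none, haB, hbB⟩
  · intro v s t hs ht
    cases s with
    | none =>
      cases t with
      | none => exact ConnIn.refl (by exact hs)
      | some b => exact hnone v b hs ht
    | some a =>
      cases t with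
      | none => exact (hnone v a ht hs).symm
      | some b => exact hsome v a b hs ht
  · intro t
    cases t with
    | none => exact hB
    | some a => exact h6 a
  · intro C' hC'
    rcases Finset.mem_insert.mp hC' with rfl | hC'
    · exact ⟨none, Finset.Subset.refl _⟩
    · obtain ⟨t, ht⟩ := h7 C' hC'
      exact ⟨some t, ht⟩

/-- the separation hypothesis provided by `main_sep` -/
def SepHyp {V : Type u} (G : SimpleGraph V) (K s0 : ℕ) : Prop :=
  ∀ J : Finset V, J.card = K → ∃ (S : Finset V) (s : ℕ), s ≤ s0 ∧ AlphaLE G S s ∧
      ∀ D : Finset V, ConnSet G D → Disjoint D S → 2 * s + 1 ≤ (J \ D).card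

theorem extend {V : Type u} [Fintype V] {G : SimpleGraph V} {K s0 : ℕ} (hK : 1 ≤ K)
    (hsep : SepHyp G K s0) :
    ∀ (N : ℕ) (A Z U : Finset V) (𝓒 : Finset (Finset V)),
      2 * A.card + (if AlphaLE G Z (K - 1) then 0 else 1) ≤ N → Disjoint A U → Z ⊆ U →
      (∃ C ∈ 𝓒, Z ⊆ C) → (∀ a ∈ A, ∀ x, G.Adj a x → x ∈ A ∪ Z) → AlphaLE G Z K →
      HasTD G (K + s0) U 𝓒 → HasTD G (K + s0) (U ∪ A) 𝓒 := by
  intro N
  induction N with
  | zero =>
    intro A Z U 𝓒 hN _ _ _ _ _ hTD
    have : A = ∅ := by
      rw [← Finset.card_eq_zero]
      omega
    rw [this, Finset.union_empty]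
    exact hTD
  | succ N ih =>
    intro A Z U 𝓒 hN hAU hZU hZC hnb hZK hTD
    by_cases hA : A = ∅
    · rw [hA, Finset.union_empty]
      exact hTD
    obtain ⟨C, hC, hZC⟩ := hZC
    by_cases hZ1 : AlphaLE G Z (K - 1)
    · -- Case: the boundary is not full; put one more vertex in
      obtain ⟨v, hv⟩ := Finset.nonempty_iff_ne_empty.mpr hA
      have hvU : v ∉ U := fun h => Finset.disjoint_left.mp hAU hv h
      have hins : AlphaLE G (insert v Z) K := by
        intro I hI hind
        have h1 : (I.erase v).card ≤ K - 1 := by
          apply hZ1
          · intro x hx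
            rw [Finset.mem_erase] at hx
            rcases Finset.mem_insert.mp (hI hx.2) with h | h
            · exact absurd h hx.1
            · exact h
          · exact hind.mono (by
              intro x hx
              exact (Finset.mem_erase.mp hx).2)
        have h2 := Finset.pred_card_le_card_erase (s := I) (a := v)
        omega
      have hTD1 : HasTD G (K + s0) (U ∪ insert v Z) (insert (insert v Z) 𝓒) := by
        apply add_leaf hTD hC
        · intro x hx
          rw [Finset.mem_inter, Finset.mem_insert] at hx
          rcases hx.1 with h | h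
          · rw [h] at hx
            exact absurd hx.2 hvU
          · exact hZC h
        · intro b hb hbU x hx hbx
          rcases Finset.mem_insert.mp hb with h | h
          · rw [h] at hbx
            rcases Finset.mem_union.mp (hnb v hv x hbx) with h' | h'
            · exact absurd hx (fun h => Finset.disjoint_left.mp hAU h' h)
            · exact Finset.mem_insert_of_mem h'
          · exact absurd (hZU h) hbU
        · intro I hI hind
          exact (hins I hI hind).trans (by omega)
      have hTD2 := ih (A.erase v) (insert v Z) (U ∪ insert v Z) (insert (insert v Z) 𝓒) (by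
          have h1 := Finset.card_erase_of_mem hv
          have h2 : 0 < A.card := Finset.card_pos.mpr ⟨v, hv⟩
          rw [if_pos hZ1] at hN
          split_ifs <;> omega) (by
          rw [Finset.disjoint_left]
          intro a ha ha'
          rw [Finset.mem_erase] at ha
          rcases Finset.mem_union.mp ha' with h | h
          · exact Finset.disjoint_left.mp hAU ha.2 h
          · rcases Finset.mem_insert.mp h with h | h
            · exact ha.1 h
            · exact Finset.disjoint_left.mp hAU ha.2 (hZU h)) Finset.subset_union_right
          ⟨insert v Z, Finset.mem_insert_self _ _, Finset.Subset.refl _⟩ (by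
          intro a ha x hax
          rw [Finset.mem_erase] at ha
          by_cases hxv : x = v
          · rw [hxv]
            exact Finset.mem_union_right _ (Finset.mem_insert_self _ _)
          · rcases Finset.mem_union.mp (hnb a ha.2 x hax) with h | h
            · exact Finset.mem_union_left _ (Finset.mem_erase.mpr ⟨hxv, h⟩)
            · exact Finset.mem_union_right _ (Finset.mem_insert_of_mem h)) hins hTD1
      have heq : U ∪ insert v Z ∪ A.erase v = U ∪ A := by
        ext x
        simp only [Finset.mem_union, Finset.mem_insert, Finset.mem_erase]
        constructor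
        · rintro ((h | rfl | h) | h)
          · exact Or.inl h
          · exact Or.inr hv
          · exact Or.inl (hZU h)
          · exact Or.inr h.2
        · rintro (h | h)
          · exact Or.inl (Or.inl h)
          · by_cases hxv : x = v
            · exact Or.inl (Or.inr (Or.inl hxv))
            · exact Or.inr ⟨hxv, h⟩
      rw [heq] at hTD2
      exact hTD2.anti (Finset.subset_insert _ _)
    · -- Case: full boundary; use the separator
      have hJ : ∃ J ⊆ Z, G.IsIndepSet (J : Set V) ∧ J.card = K := by
        unfold AlphaLE at hZ1
        push Not at hZ1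
        obtain ⟨I, hI, hind, hcard⟩ := hZ1
        obtain ⟨J, hJI, hJc⟩ := Finset.exists_subset_card_eq (s := I) (n := K) (by omega)
        exact ⟨J, hJI.trans hI, hind.mono (by exact_mod_cast hJI), hJc⟩
      obtain ⟨J, hJZ, hJind, hJc⟩ := hJ
      obtain ⟨S, s, hs, hS, hD⟩ := hsep J hJc
      have hNA : 2 * A.card + 1 ≤ N + 1 := by
        rw [if_neg hZ1] at hN
        exact hN
      -- the new bag
      set B : Finset V := Z ∪ (S ∩ A) with hB
      have hBalpha : AlphaLE G B (K + s0) := by
        intro I hI hind
        have h1 : (I ∩ Z).card ≤ K :=
          hZK _ Finset.inter_subset_right (hind.mono (by simp))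
        have h2 : (I ∩ S).card ≤ s :=
          hS _ Finset.inter_subset_right (hind.mono (by simp))
        have h3 : I ⊆ (I ∩ Z) ∪ (I ∩ S) := by
          intro x hx
          rcases Finset.mem_union.mp (hI hx) with h | h
          · exact Finset.mem_union_left _ (Finset.mem_inter.mpr ⟨hx, h⟩)
          · exact Finset.mem_union_right _ (Finset.mem_inter.mpr ⟨hx, (Finset.mem_inter.mp h).1⟩)
        have h4 := (Finset.card_le_card h3).trans (Finset.card_union_le _ _)
        omega
      have hTD1 : HasTD G (K + s0) (U ∪ B) (insert B 𝓒) := by
        apply add_leaf hTD hC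
        · intro x hx
          rw [Finset.mem_inter, hB, Finset.mem_union, Finset.mem_inter] at hx
          rcases hx.1 with h | h
          · exact hZC h
          · exact absurd hx.2 (fun h' => Finset.disjoint_left.mp hAU h.2 h')
        · intro b hb hbU x hx hbx
          rw [hB] at hb
          rcases Finset.mem_union.mp hb with h | h
          · exact absurd (hZU h) hbU
          · rcases Finset.mem_union.mp (hnb b (Finset.mem_inter.mp h).2 x hbx) with h' | h'
            · exact absurd hx (fun h => Finset.disjoint_left.mp hAU h' h)
            · exact Finset.mem_union_left _ h'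
        · exact hBalpha
      -- inner induction over the components
      have hinner : ∀ (M : ℕ) (R U' : Finset V), R.card ≤ M → R ⊆ A \ S →
          (∀ r ∈ R, ∀ x ∈ A \ S, ConnIn G {z | z ∉ S} r x → x ∈ R) → Disjoint R U' →
          U ∪ B ⊆ U' → HasTD G (K + s0) U' (insert B 𝓒) →
          HasTD G (K + s0) (U' ∪ R) (insert B 𝓒) := by
        intro M
        induction M with
        | zero =>
          intro R U' hR _ _ _ _ hTD'
          have : R = ∅ := by
            rw [← Finset.card_eq_zero]
            omega
          rw [this, Finset.union_empty]
          exact hTD'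
        | succ M ihM =>
          intro R U' hRM hRA hRcl hRU hU' hTD'
          by_cases hR : R = ∅
          · rw [hR, Finset.union_empty]
            exact hTD'
          obtain ⟨v, hv⟩ := Finset.nonempty_iff_ne_empty.mpr hR
          have hvA := Finset.mem_sdiff.mp (hRA hv)
          set D : Finset V := Finset.univ.filter (fun x => ConnIn G {z | z ∉ S} v x) with hDdef
          have hmemD : ∀ x, x ∈ D ↔ ConnIn G {z | z ∉ S} v x := by
            intro x
            simp [hDdef]
          have hvD : v ∈ D := (hmemD v).mpr (ConnIn.refl (by exact hvA.2))
          have hDS : Disjoint D S := by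
            rw [Finset.disjoint_left]
            intro x hx hx'
            exact ((hmemD x).mp hx).right_mem hx'
          have hDnb : ∀ d ∈ D, ∀ x, G.Adj d x → x ∈ D ∨ x ∈ S := by
            intro d hd x hdx
            by_cases hxS : x ∈ S
            · exact Or.inr hxS
            · left
              rw [hmemD] at hd ⊢
              exact hd.trans (ConnIn.adj hdx hd.right_mem hxS)
          have hDconn : ConnSet G D := by
            have key : ∀ x ∈ D, ConnIn G (D : Set V) v x := by
              intro x hx
              obtain ⟨p, hp⟩ := (hmemD x).mp hx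
              refine ⟨p, ?_⟩
              intro z hz
              rw [Finset.mem_coe, hmemD]
              refine ⟨p.takeUntil z hz, ?_⟩
              intro w hw
              exact hp w (p.support_takeUntil_subset_support hz hw)
            intro x hx y hy
            exact (key x hx).symm.trans (key y hy)
          have hDJ := hD D hDconn hDS
          set AD : Finset V := R ∩ D with hAD
          set ZD : Finset V := (Z ∩ D) ∪ (S ∩ (A ∪ Z)) with hZD
          have hZDB : ZD ⊆ B := by
            intro x hx
            rw [hZD, Finset.mem_union, Finset.mem_inter, Finset.mem_inter, Finset.mem_union] at hx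
            rw [hB, Finset.mem_union, Finset.mem_inter]
            tauto
          have hZDalpha : AlphaLE G ZD (K - 1) := by
            intro I hI hind
            have h1 : (I ∩ S).card ≤ s :=
              hS _ Finset.inter_subset_right (hind.mono (by simp))
            have h2 : I ⊆ (I ∩ (Z ∩ D)) ∪ (I ∩ S) := by
              intro x hx
              rcases Finset.mem_union.mp (hI hx) with h | h
              · exact Finset.mem_union_left _ (Finset.mem_inter.mpr ⟨hx, h⟩)
              · exact Finset.mem_union_right _
                  (Finset.mem_inter.mpr ⟨hx, (Finset.mem_inter.mp h).1⟩)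
            have h3 := (Finset.card_le_card h2).trans (Finset.card_union_le _ _)
            -- the part of `J` outside `D` and `S`
            have h4 : (J ∩ S).card ≤ s :=
              hS _ Finset.inter_subset_right (hJind.mono (by simp))
            have h5 : J \ D ⊆ ((J \ D) \ S) ∪ (J ∩ S) := by
              intro x hx
              by_cases hxS : x ∈ S
              · exact Finset.mem_union_right _
                  (Finset.mem_inter.mpr ⟨(Finset.mem_sdiff.mp hx).1, hxS⟩)
              · exact Finset.mem_union_left _ (Finset.mem_sdiff.mpr ⟨hx, hxS⟩)
            have h6 := (Finset.card_le_card h5).trans (Finset.card_union_le _ _)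
            have h7 : ((I ∩ (Z ∩ D)) ∪ ((J \ D) \ S)).card ≤ K := by
              apply hZK
              · intro x hx
                rcases Finset.mem_union.mp hx with h | h
                · exact (Finset.mem_inter.mp (Finset.mem_inter.mp h).2).1
                · exact hJZ (Finset.mem_sdiff.mp (Finset.mem_sdiff.mp h).1).1
              · intro x hx y hy hxy hadj
                rw [Finset.mem_coe, Finset.mem_union] at hx hy
                rcases hx with hx | hx
                · rcases hy with hy | hy
                  · exact hind (Finset.mem_inter.mp hx).1 (Finset.mem_inter.mp hy).1 hxy hadj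
                  · rw [Finset.mem_inter, Finset.mem_inter] at hx
                    rw [Finset.mem_sdiff, Finset.mem_sdiff] at hy
                    rcases hDnb x hx.2.2 y hadj with h | h
                    · exact hy.1.2 h
                    · exact hy.2 h
                · rcases hy with hy | hy
                  · rw [Finset.mem_inter, Finset.mem_inter] at hy
                    rw [Finset.mem_sdiff, Finset.mem_sdiff] at hx
                    rcases hDnb y hy.2.2 x hadj.symm with h | h
                    · exact hx.1.2 h
                    · exact hx.2 h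
                  · rw [Finset.mem_sdiff, Finset.mem_sdiff] at hx hy
                    exact hJind hx.1.1 hy.1.1 hxy hadj
            rw [Finset.card_union_of_disjoint (by
              rw [Finset.disjoint_left]
              intro x hx hx'
              rw [Finset.mem_inter, Finset.mem_inter] at hx
              rw [Finset.mem_sdiff, Finset.mem_sdiff] at hx'
              exact hx'.1.2 hx.2.2)] at h7
            omega
          have hTD2 := ih AD ZD U' (insert B 𝓒) (by
              rw [if_pos hZDalpha]
              have : AD.card ≤ A.card := Finset.card_le_card (by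
                intro x hx
                exact (Finset.mem_sdiff.mp (hRA (Finset.mem_inter.mp hx).1)).1)
              omega) (by
              rw [Finset.disjoint_left]
              intro a ha ha'
              exact Finset.disjoint_left.mp hRU (Finset.mem_inter.mp ha).1 ha')
              (hZDB.trans (Finset.subset_union_right.trans hU'))
              ⟨B, Finset.mem_insert_self _ _, hZDB⟩ (by
              intro a ha x hax
              rw [hAD, Finset.mem_inter] at ha
              have haA := Finset.mem_sdiff.mp (hRA ha.1)
              have hx := hnb a haA.1 x hax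
              rcases hDnb a ha.2 x hax with h | h
              · rcases Finset.mem_union.mp hx with h' | h'
                · have hxS : x ∉ S := fun h'' => Finset.disjoint_left.mp hDS h h''
                  apply Finset.mem_union_left
                  rw [hAD, Finset.mem_inter]
                  refine ⟨hRcl v hv x (Finset.mem_sdiff.mpr ⟨h', hxS⟩) ((hmemD x).mp h), h⟩
                · apply Finset.mem_union_right
                  rw [hZD, Finset.mem_union, Finset.mem_inter]
                  exact Or.inl ⟨h', h⟩
              · apply Finset.mem_union_right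
                rw [hZD, Finset.mem_union, Finset.mem_inter, Finset.mem_inter]
                exact Or.inr ⟨h, hx⟩) (by
              intro I hI hind
              exact (hZDalpha I hI hind).trans (by omega)) hTD'
          have hTD3 := ihM (R \ D) (U' ∪ AD) (by
              have : (R \ D).card < R.card := Finset.card_lt_card (by
                rw [Finset.ssubset_iff_of_subset Finset.sdiff_subset]
                exact ⟨v, hv, fun h => (Finset.mem_sdiff.mp h).2 hvD⟩)
              omega) (Finset.sdiff_subset.trans hRA) (by
              intro r hr x hx hrx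
              rw [Finset.mem_sdiff] at hr ⊢
              refine ⟨hRcl r hr.1 x hx hrx, ?_⟩
              intro hxD
              apply hr.2
              rw [hmemD] at hxD ⊢
              exact hxD.trans hrx.symm) (by
              rw [Finset.disjoint_left]
              intro a ha ha'
              rw [Finset.mem_sdiff] at ha
              rcases Finset.mem_union.mp ha' with h | h
              · exact Finset.disjoint_left.mp hRU ha.1 h
              · exact ha.2 (Finset.mem_inter.mp h).2)
              (hU'.trans Finset.subset_union_left) hTD2
          have heq : U' ∪ AD ∪ R \ D = U' ∪ R := by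
            ext x
            rw [hAD]
            simp only [Finset.mem_union, Finset.mem_inter, Finset.mem_sdiff]
            tauto
          rw [heq] at hTD3
          exact hTD3
      have hTD4 := hinner _ (A \ S) (U ∪ B) le_rfl (Finset.Subset.refl _) (by
          intro r _ x hx _
          exact hx) (by
          rw [Finset.disjoint_left]
          intro a ha ha'
          rw [Finset.mem_sdiff] at ha
          rcases Finset.mem_union.mp ha' with h | h
          · exact Finset.disjoint_left.mp hAU ha.1 h
          · rw [hB, Finset.mem_union, Finset.mem_inter] at h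
            rcases h with h | h
            · exact Finset.disjoint_left.mp hAU ha.1 (hZU h)
            · exact ha.2 h.1) (Finset.Subset.refl _) hTD1
      have heq : U ∪ B ∪ A \ S = U ∪ A := by
        ext x
        rw [hB]
        simp only [Finset.mem_union, Finset.mem_inter, Finset.mem_sdiff]
        constructor
        · rintro ((h | h | h) | h)
          · exact Or.inl h
          · exact Or.inl (hZU h)
          · exact Or.inr h.2
          · exact Or.inr h.1
        · rintro (h | h)
          · exact Or.inl (Or.inl h)
          · by_cases hxS : x ∈ S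
            · exact Or.inl (Or.inr (Or.inr ⟨hxS, h⟩))
            · exact Or.inr ⟨h, hxS⟩
      rw [heq] at hTD4
      exact hTD4.anti (Finset.subset_insert _ _)

theorem hasTD_univ {V : Type u} [Fintype V] {G : SimpleGraph V} {K s0 : ℕ} (hK : 1 ≤ K)
    (hsep : SepHyp G K s0) : HasTD G (K + s0) Finset.univ {∅} := by
  have h := extend hK hsep _ Finset.univ ∅ ∅ {∅} le_rfl (by simp) (by simp)
    ⟨∅, by simp, by simp⟩ (by simp) (by
      intro I hI _
      rw [Finset.subset_empty] at hI
      simp [hI]) (hasTD_empty G (K + s0))
  simpa using h

end Pool.Agent.Work.MP_44e7ab_co
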